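import Pool.Agent.SPM.Stmts

/-!
# MP_7a4c99_nt: the pure Brun sieve (helper34)
-/

set_option autoImplicit false

namespace Pool.Agent.SPM.B34

open Finset

/-- truncated sums over the subsets -/
noncomputable def G (P : Finset ℕ) (m : ℕ) (g : ℕ → ℝ) : ℝ :=
  ∑ D ∈ P.powerset, if D.card ≤ m then ∏ q ∈ D, g q else 0

lemma G_empty (m : ℕ) (g : ℕ → ℝ) : G ∅ m g = 1 := by
  unfold G
  simp

lemma G_zero (P : Finset ℕ) (g : ℕ → ℝ) : G P 0 g = 1 := by
  unfold G
  rw [Finset.sum_eq_single ∅]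
  · simp
  · intro D _ hD
    rw [if_neg]
    intro h
    exact hD (Finset.card_eq_zero.1 (Nat.le_zero.1 h))
  · intro h
    exact absurd (Finset.empty_mem_powerset P) h

lemma G_insert {P : Finset ℕ} {q : ℕ} (hq : q ∉ P) (m : ℕ) (g : ℕ → ℝ) :
    G (insert q P) (m + 1) g = G P (m + 1) g + g q * G P m g := by
  unfold G
  rw [Finset.sum_powerset_insert hq, Finset.mul_sum]
  congr 1
  apply Finset.sum_congr rfl
  intro D hD
  have hD' : q ∉ D := fun h => hq (Finset.mem_powerset.1 hD h)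
  rw [Finset.card_insert_of_notMem hD', Finset.prod_insert hD']
  by_cases h : D.card ≤ m
  · rw [if_pos h, if_pos (by omega)]
  · rw [if_neg h, if_neg (by omega), mul_zero]

/-- the error term -/
lemma G_le (P : Finset ℕ) (f : ℕ → ℝ) (hf : ∀ q ∈ P, 0 ≤ f q) : ∀ m : ℕ, G P m f ≤ (1 + ∑ q ∈ P, f q) ^ m := by
  induction P using Finset.induction_on with
  | empty =>
    intro m
    rw [G_empty]
    simp
  | insert q P hq ih =>
    intro m
    have hf' : ∀ r ∈ P, 0 ≤ f r := fun r hr => hf r (Finset.mem_insert_of_mem hr)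
    have hfq : 0 ≤ f q := hf q (Finset.mem_insert_self q P)
    have hS : 0 ≤ ∑ r ∈ P, f r := Finset.sum_nonneg hf'
    cases m with
    | zero => rw [G_zero, pow_zero]
    | succ m =>
      rw [G_insert hq, Finset.sum_insert hq]
      have h1 := ih hf' (m + 1)
      have h2 := ih hf' m
      set S := ∑ r ∈ P, f r with hSd
      have h3 : (1 + S) ^ m ≤ (1 + (f q + S)) ^ m := pow_le_pow_left₀ (by linarith) (by linarith) m
      calc G P (m + 1) f + f q * G P m f ≤ (1 + S) ^ (m + 1) + f q * (1 + S) ^ m := by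
            have := mul_le_mul_of_nonneg_left h2 hfq
            linarith
        _ = (1 + S) ^ m * (1 + (f q + S)) := by ring
        _ ≤ (1 + (f q + S)) ^ m * (1 + (f q + S)) := mul_le_mul_of_nonneg_right h3 (by linarith)
        _ = (1 + (f q + S)) ^ (m + 1) := by ring

lemma prod_mem (P : Finset ℕ) (h : ℕ → ℝ) (h0 : ∀ q ∈ P, 0 ≤ h q) (h1 : ∀ q ∈ P, h q ≤ 1) :
    0 ≤ ∏ q ∈ P, (1 - h q) ∧ ∏ q ∈ P, (1 - h q) ≤ 1 := by
  constructor
  · exact Finset.prod_nonneg fun q hq => by linarith [h1 q hq]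
  · exact Finset.prod_le_one (fun q hq => by linarith [h1 q hq]) fun q hq => by linarith [h0 q hq]

lemma pw {a b : ℝ} (ha : 0 ≤ a) (hb : 0 ≤ b) (n : ℕ) : b ^ (n + 1) + (n + 1) * (a * b ^ n) ≤ (a + b) ^ (n + 1) := by
  induction n with
  | zero =>
    norm_num
    linarith
  | succ n ih =>
    have h1 : (a + b) * (b ^ (n + 1) + (n + 1) * (a * b ^ n)) ≤ (a + b) * (a + b) ^ (n + 1) :=
      mul_le_mul_of_nonneg_left ih (by linarith)
    have h2 : 0 ≤ ((n : ℝ) + 1) * (a ^ 2 * b ^ n) := by positivity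
    push_cast
    calc b ^ (n + 1 + 1) + ((n : ℝ) + 1 + 1) * (a * b ^ (n + 1)) ≤
        (a + b) * (b ^ (n + 1) + (n + 1) * (a * b ^ n)) := by
          have e : (a + b) * (b ^ (n + 1) + (n + 1) * (a * b ^ n)) =
            b ^ (n + 1 + 1) + ((n : ℝ) + 1 + 1) * (a * b ^ (n + 1)) + (n + 1) * (a ^ 2 * b ^ n) := by ring
          linarith
      _ ≤ (a + b) * (a + b) ^ (n + 1) := h1
      _ = (a + b) ^ (n + 1 + 1) := by ring

/-- Bonferroni with weights -/
lemma bonf (P : Finset ℕ) (h : ℕ → ℝ) (h0 : ∀ q ∈ P, 0 ≤ h q) (h1 : ∀ q ∈ P, h q ≤ 1) : ∀ m : ℕ,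
    0 ≤ (-1) ^ m * (G P m (fun q => - h q) - ∏ q ∈ P, (1 - h q)) ∧
    (-1) ^ m * (G P m (fun q => - h q) - ∏ q ∈ P, (1 - h q)) ≤ (∑ q ∈ P, h q) ^ (m + 1) / (m + 1).factorial := by
  induction P using Finset.induction_on with
  | empty =>
    intro m
    rw [G_empty]
    simp
  | insert q P hq ih =>
    have h0' : ∀ r ∈ P, 0 ≤ h r := fun r hr => h0 r (Finset.mem_insert_of_mem hr)
    have h1' : ∀ r ∈ P, h r ≤ 1 := fun r hr => h1 r (Finset.mem_insert_of_mem hr)
    have hq0 : 0 ≤ h q := h0 q (Finset.mem_insert_self q P)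
    have hp := prod_mem P h h0' h1'
    have hS : 0 ≤ ∑ r ∈ P, h r := Finset.sum_nonneg h0'
    have ih' := ih h0' h1'
    intro m
    rw [Finset.prod_insert hq, Finset.sum_insert hq]
    set S := ∑ r ∈ P, h r with hSd
    set π := ∏ r ∈ P, (1 - h r) with hπ
    cases m with
    | zero =>
      have a := ih' 0
      rw [G_zero] at a ⊢
      simp only [pow_zero, one_mul, zero_add, pow_one, Nat.factorial_one, Nat.cast_one, div_one] at a ⊢
      obtain ⟨a1, a2⟩ := a
      constructor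
      · nlinarith [hp.1]
      · nlinarith [hp.2, mul_le_mul_of_nonneg_left hp.2 hq0]
    | succ m =>
      have a := ih' (m + 1)
      have b := ih' m
      rw [G_insert hq]
      have key : (-1 : ℝ) ^ (m + 1) * (G P (m + 1) (fun q => - h q) + (- h q) * G P m (fun q => - h q) -
          (1 - h q) * π) = (-1) ^ (m + 1) * (G P (m + 1) (fun q => - h q) - π) +
            h q * ((-1) ^ m * (G P m (fun q => - h q) - π)) := by
        rw [pow_succ]
        ring
      rw [key]
      obtain ⟨a1, a2⟩ := a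
      obtain ⟨b1, b2⟩ := b
      constructor
      · have := mul_nonneg hq0 b1
        linarith
      · have c := mul_le_mul_of_nonneg_left b2 hq0
        refine (add_le_add a2 c).trans ?_
        have hfac : ((m + 1 + 1).factorial : ℝ) = (m + 2) * (m + 1).factorial := by
          rw [Nat.factorial_succ (m + 1)]
          push_cast
          ring
        have hF : (0 : ℝ) < (m + 1).factorial := by exact_mod_cast Nat.factorial_pos (m + 1)
        have hpow := pw hq0 hS (m + 1)
        push_cast at hpow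
        have e1 : S ^ (m + 1 + 1) / ((m + 1 + 1).factorial : ℝ) + h q * (S ^ (m + 1) / ((m + 1).factorial : ℝ)) =
            (S ^ (m + 1 + 1) + ((m : ℝ) + 1 + 1) * (h q * S ^ (m + 1))) / ((m + 1 + 1).factorial : ℝ) := by
          rw [hfac]
          have : (m : ℝ) + 2 ≠ 0 := by positivity
          field_simp
          ring
        rw [e1]
        exact div_le_div_of_nonneg_right hpow (by positivity)

/-- one residue class -/
lemma cls (x m c : ℕ) (hm : 0 < m) : |((((Finset.Ioc 0 x).filter (fun k => k ≡ c [MOD m])).card : ℕ) : ℝ) - (x : ℝ) / m| ≤ 1 := by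
  have h1 := Nat.Ioc_filter_modEq_card 0 x hm c
  have hmQ : (0 : ℚ) < m := by exact_mod_cast hm
  set u : ℚ := ((x : ℚ) - c) / m with hu
  set v : ℚ := (((0 : ℕ) : ℚ) - c) / m with hv
  have huv : u - v = (x : ℚ) / m := by
    rw [hu, hv]
    field_simp
    push_cast
    ring
  have hle : v ≤ u := by
    have : (0 : ℚ) ≤ (x : ℚ) / m := by positivity
    linarith
  have hfl : ⌊v⌋ ≤ ⌊u⌋ := Int.floor_le_floor hle
  rw [max_eq_left (by linarith)] at h1
  have h2 : ((((Finset.Ioc 0 x).filter (fun k => k ≡ c [MOD m])).card : ℕ) : ℚ) = (⌊u⌋ : ℚ) - ⌊v⌋ := by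
    exact_mod_cast h1
  have h3 : |((((Finset.Ioc 0 x).filter (fun k => k ≡ c [MOD m])).card : ℕ) : ℚ) - (x : ℚ) / m| ≤ 1 := by
    rw [h2, ← huv, abs_le]
    have a1 := Int.floor_le u
    have a2 := Int.lt_floor_add_one u
    have a3 := Int.floor_le v
    have a4 := Int.lt_floor_add_one v
    constructor <;> linarith
  have h4 : (((|((((Finset.Ioc 0 x).filter (fun k => k ≡ c [MOD m])).card : ℕ) : ℚ) - (x : ℚ) / m|) : ℚ) : ℝ) ≤ ((1 : ℚ) : ℝ) := by
    exact_mod_cast h3
  push_cast at h4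
  exact h4

/-- the count of the numbers in prescribed sets of classes -/
lemma cnt (x : ℕ) (F : ℕ → Finset ℕ) (D : Finset ℕ) : (∀ q ∈ D, q.Prime) → (∀ q ∈ D, ∀ r ∈ F q, r < q) →
    ∀ m c : ℕ, 0 < m → (∀ q ∈ D, Nat.Coprime m q) →
    |((((Finset.Ioc 0 x).filter (fun k => k ≡ c [MOD m] ∧ ∀ q ∈ D, k % q ∈ F q)).card : ℕ) : ℝ) -
      (x : ℝ) / m * ∏ q ∈ D, (((F q).card : ℝ) / q)| ≤ ∏ q ∈ D, ((F q).card : ℝ) := by
  induction D using Finset.induction_on with
  | empty =>
    intro _ _ m c hm _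
    simpa using cls x m c hm
  | insert p D hp ih =>
    intro hP hF m c hm hco
    have hP' : ∀ q ∈ D, q.Prime := fun q hq => hP q (Finset.mem_insert_of_mem hq)
    have hF' : ∀ q ∈ D, ∀ r ∈ F q, r < q := fun q hq => hF q (Finset.mem_insert_of_mem hq)
    have hpp : p.Prime := hP p (Finset.mem_insert_self p D)
    have hmp : Nat.Coprime m p := hco p (Finset.mem_insert_self p D)
    have hsplit : (Finset.Ioc 0 x).filter (fun k => k ≡ c [MOD m] ∧ ∀ q ∈ insert p D, k % q ∈ F q) =
        (F p).biUnion (fun r => (Finset.Ioc 0 x).filter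
          (fun k => k ≡ (Nat.chineseRemainder hmp c r : ℕ) [MOD (m * p)] ∧ ∀ q ∈ D, k % q ∈ F q)) := by
      ext k
      simp only [Finset.mem_filter, Finset.mem_biUnion, Finset.forall_mem_insert]
      constructor
      · rintro ⟨hk, h1, h2, h3⟩
        refine ⟨k % p, h2, hk, ?_, h3⟩
        have hcr := (Nat.chineseRemainder hmp c (k % p)).2
        refine (Nat.modEq_and_modEq_iff_modEq_mul hmp).1 ⟨h1.trans hcr.1.symm, ?_⟩
        exact (Nat.mod_modEq k p).symm.trans hcr.2.symm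
      · rintro ⟨r, hr, hk, h1, h3⟩
        have hcr := (Nat.chineseRemainder hmp c r).2
        have h4 := (Nat.modEq_and_modEq_iff_modEq_mul hmp).2 h1
        refine ⟨hk, h4.1.trans hcr.1, ?_, h3⟩
        have h5 : k ≡ r [MOD p] := h4.2.trans hcr.2
        have h6 : k % p = r := by
          have : k % p = r % p := h5
          rw [this, Nat.mod_eq_of_lt (hF p (Finset.mem_insert_self p D) r hr)]
        rw [h6]
        exact hr
    have hcard : ((Finset.Ioc 0 x).filter (fun k => k ≡ c [MOD m] ∧ ∀ q ∈ insert p D, k % q ∈ F q)).card =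
        ∑ r ∈ F p, ((Finset.Ioc 0 x).filter
          (fun k => k ≡ (Nat.chineseRemainder hmp c r : ℕ) [MOD (m * p)] ∧ ∀ q ∈ D, k % q ∈ F q)).card := by
      rw [hsplit, Finset.card_biUnion]
      intro r hr s hs hrs
      rw [Function.onFun, Finset.disjoint_left]
      intro k hk1 hk2
      rw [Finset.mem_filter] at hk1 hk2
      apply hrs
      have a := (Nat.modEq_and_modEq_iff_modEq_mul hmp).2 hk1.2.1
      have b := (Nat.modEq_and_modEq_iff_modEq_mul hmp).2 hk2.2.1
      have a' := a.2.trans (Nat.chineseRemainder hmp c r).2.2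
      have b' := b.2.trans (Nat.chineseRemainder hmp c s).2.2
      have e : r ≡ s [MOD p] := a'.symm.trans b'
      have e2 : r % p = s % p := e
      rwa [Nat.mod_eq_of_lt (hF p (Finset.mem_insert_self p D) r hr),
        Nat.mod_eq_of_lt (hF p (Finset.mem_insert_self p D) s hs)] at e2
    rw [hcard, Finset.prod_insert hp, Finset.prod_insert hp]
    push_cast
    have hp0 : (p : ℝ) ≠ 0 := by exact_mod_cast hpp.ne_zero
    have hm0 : (m : ℝ) ≠ 0 := by exact_mod_cast hm.ne'
    have hbound : ∀ r ∈ F p, |((((Finset.Ioc 0 x).filter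
          (fun k => k ≡ (Nat.chineseRemainder hmp c r : ℕ) [MOD (m * p)] ∧ ∀ q ∈ D, k % q ∈ F q)).card : ℕ) : ℝ) -
        (x : ℝ) / ((m * p : ℕ) : ℝ) * ∏ q ∈ D, (((F q).card : ℝ) / q)| ≤ ∏ q ∈ D, ((F q).card : ℝ) := by
      intro r _
      apply ih hP' hF' (m * p) _ (Nat.mul_pos hm hpp.pos)
      intro q hq
      refine Nat.Coprime.mul_left (hco q (Finset.mem_insert_of_mem hq)) ?_
      rw [Nat.coprime_primes hpp (hP' q hq)]
      rintro rfl
      exact hp hq
    have e : (x : ℝ) / m * (((F p).card : ℝ) / p * ∏ q ∈ D, (((F q).card : ℝ) / q)) =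
        ∑ _r ∈ F p, (x : ℝ) / ((m * p : ℕ) : ℝ) * ∏ q ∈ D, (((F q).card : ℝ) / q) := by
      rw [Finset.sum_const, nsmul_eq_mul, Nat.cast_mul]
      generalize ∏ q ∈ D, (((F q).card : ℝ) / q) = vv
      generalize ((F p).card : ℝ) = u
      rw [← div_div]
      ring
    rw [e, ← Finset.sum_sub_distrib]
    refine (Finset.abs_sum_le_sum_abs _ _).trans ?_
    refine (Finset.sum_le_sum hbound).trans ?_
    rw [Finset.sum_const, nsmul_eq_mul]

/-- **The pure Brun sieve.** -/
theorem brun34 (P : Finset ℕ) (hP : ∀ q ∈ P, q.Prime) (F : ℕ → Finset ℕ) (hF : ∀ q ∈ P, ∀ r ∈ F q, r < q)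
    (x t : ℕ) :
    (((Finset.Icc 1 x).filter (fun k => ∀ q ∈ P, k % q ∉ F q)).card : ℝ) ≤
      x * (Real.exp (-∑ q ∈ P, ((F q).card : ℝ) / q) +
        (∑ q ∈ P, ((F q).card : ℝ) / q) ^ (2 * t + 1) / (2 * t + 1).factorial) +
      (1 + ∑ q ∈ P, ((F q).card : ℝ)) ^ (2 * t) := by
  classical
  have hIcc : Finset.Icc 1 x = Finset.Ioc 0 x := by
    ext k
    simp only [Finset.mem_Icc, Finset.mem_Ioc]
    omega
  rw [hIcc]
  set h : ℕ → ℝ := fun q => ((F q).card : ℝ) / q with hh
  have h0 : ∀ q ∈ P, 0 ≤ h q := fun q _ => by rw [hh]; positivity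
  have h1 : ∀ q ∈ P, h q ≤ 1 := by
    intro q hq
    have hc : (F q).card ≤ q := by
      have : F q ⊆ Finset.range q := fun r hr => Finset.mem_range.2 (hF q hq r hr)
      simpa using Finset.card_le_card this
    have hq0 : (0 : ℝ) < q := by exact_mod_cast (hP q hq).pos
    rw [hh]
    simp only
    rw [div_le_one hq0]
    exact_mod_cast hc
  -- indicator
  set ι : ℕ → ℕ → ℝ := fun k q => if k % q ∈ F q then 1 else 0 with hι
  have hι0 : ∀ k, ∀ q ∈ P, 0 ≤ ι k q := by
    intro k q _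
    rw [hι]
    simp only
    split_ifs <;> norm_num
  have hι1 : ∀ k, ∀ q ∈ P, ι k q ≤ 1 := by
    intro k q _
    rw [hι]
    simp only
    split_ifs <;> norm_num
  have s1 : (((Finset.Ioc 0 x).filter (fun k => ∀ q ∈ P, k % q ∉ F q)).card : ℝ) =
      ∑ k ∈ Finset.Ioc 0 x, ∏ q ∈ P, (1 - ι k q) := by
    rw [Finset.card_filter]
    push_cast
    apply Finset.sum_congr rfl
    intro k _
    by_cases hk : ∀ q ∈ P, k % q ∉ F q
    · rw [if_pos hk]
      symm
      apply Finset.prod_eq_one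
      intro q hq
      rw [hι]
      simp only
      rw [if_neg (hk q hq), sub_zero]
    · rw [if_neg hk]
      push Not at hk
      obtain ⟨q, hq, hkq⟩ := hk
      symm
      apply Finset.prod_eq_zero hq
      rw [hι]
      simp only
      rw [if_pos hkq, sub_self]
  have s2 : ∀ k, ∏ q ∈ P, (1 - ι k q) ≤ G P (2 * t) (fun q => - ι k q) := by
    intro k
    have := (bonf P (ι k) (hι0 k) (hι1 k) (2 * t)).1
    rw [pow_mul] at this
    norm_num at this
    exact this
  have s3 : ∑ k ∈ Finset.Ioc 0 x, G P (2 * t) (fun q => - ι k q) =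
      ∑ D ∈ P.powerset, if D.card ≤ 2 * t then
        (-1) ^ D.card * ((((Finset.Ioc 0 x).filter (fun k => ∀ q ∈ D, k % q ∈ F q)).card : ℕ) : ℝ) else 0 := by
    unfold G
    rw [Finset.sum_comm]
    apply Finset.sum_congr rfl
    intro D _
    by_cases hD : D.card ≤ 2 * t
    · simp only [if_pos hD]
      rw [Finset.card_filter]
      push_cast
      rw [Finset.mul_sum]
      apply Finset.sum_congr rfl
      intro k _
      rw [Finset.prod_neg]
      congr 1
      by_cases hk : ∀ q ∈ D, k % q ∈ F q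
      · rw [if_pos hk]
        apply Finset.prod_eq_one
        intro q hq
        rw [hι]
        simp only
        rw [if_pos (hk q hq)]
      · rw [if_neg hk]
        push Not at hk
        obtain ⟨q, hq, hkq⟩ := hk
        apply Finset.prod_eq_zero hq
        rw [hι]
        simp only
        rw [if_neg hkq]
    · simp only [if_neg hD, Finset.sum_const_zero]
  have s4 : ∀ D ∈ P.powerset, (-1 : ℝ) ^ D.card * ((((Finset.Ioc 0 x).filter (fun k => ∀ q ∈ D, k % q ∈ F q)).card : ℕ) : ℝ) ≤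
      x * ∏ q ∈ D, (- h q) + ∏ q ∈ D, ((F q).card : ℝ) := by
    intro D hD
    have hDP := Finset.mem_powerset.1 hD
    have c := cnt x F D (fun q hq => hP q (hDP hq)) (fun q hq => hF q (hDP hq)) 1 0 one_pos
      (fun q _ => Nat.coprime_one_left q)
    have ef : (Finset.Ioc 0 x).filter (fun k => k ≡ 0 [MOD 1] ∧ ∀ q ∈ D, k % q ∈ F q) =
        (Finset.Ioc 0 x).filter (fun k => ∀ q ∈ D, k % q ∈ F q) := by
      apply Finset.filter_congr
      intro k _
      simp [Nat.modEq_one]
    rw [ef] at c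
    rw [Finset.prod_neg]
    simp only [Nat.cast_one, div_one] at c
    rw [abs_le] at c
    have hsg : ((-1 : ℝ) ^ D.card = 1) ∨ ((-1 : ℝ) ^ D.card = -1) := neg_one_pow_eq_or ℝ D.card
    have hh' : ∏ q ∈ D, h q = ∏ q ∈ D, (((F q).card : ℝ) / q) := rfl
    rw [hh']
    rcases hsg with e | e
    · rw [e]
      linarith [c.2]
    · rw [e]
      linarith [c.1]
  have s5 : (∑ D ∈ P.powerset, if D.card ≤ 2 * t then
        (-1) ^ D.card * ((((Finset.Ioc 0 x).filter (fun k => ∀ q ∈ D, k % q ∈ F q)).card : ℕ) : ℝ) else 0) ≤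
      x * G P (2 * t) (fun q => - h q) + G P (2 * t) (fun q => ((F q).card : ℝ)) := by
    unfold G
    rw [Finset.mul_sum, ← Finset.sum_add_distrib]
    apply Finset.sum_le_sum
    intro D hD
    by_cases hc : D.card ≤ 2 * t
    · simp only [if_pos hc]
      exact s4 D hD
    · simp only [if_neg hc]
      norm_num
  have s6 := (bonf P h h0 h1 (2 * t)).2
  have s7 : ∏ q ∈ P, (1 - h q) ≤ Real.exp (-∑ q ∈ P, h q) := by
    rw [← Finset.sum_neg_distrib, Real.exp_sum]
    apply Finset.prod_le_prod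
    · intro q hq
      linarith [h1 q hq]
    · intro q _
      have := Real.add_one_le_exp (-h q)
      linarith
  have s8 := G_le P (fun q => ((F q).card : ℝ)) (fun q _ => Nat.cast_nonneg _) (2 * t)
  rw [pow_mul] at s6
  norm_num at s6
  have hx : (0 : ℝ) ≤ x := Nat.cast_nonneg x
  calc (((Finset.Ioc 0 x).filter (fun k => ∀ q ∈ P, k % q ∉ F q)).card : ℝ)
      = ∑ k ∈ Finset.Ioc 0 x, ∏ q ∈ P, (1 - ι k q) := s1
    _ ≤ ∑ k ∈ Finset.Ioc 0 x, G P (2 * t) (fun q => - ι k q) := Finset.sum_le_sum fun k _ => s2 k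
    _ ≤ x * G P (2 * t) (fun q => - h q) + G P (2 * t) (fun q => ((F q).card : ℝ)) := by
        rw [s3]
        exact s5
    _ ≤ x * (Real.exp (-∑ q ∈ P, h q) + (∑ q ∈ P, h q) ^ (2 * t + 1) / (2 * t + 1).factorial) +
      (1 + ∑ q ∈ P, ((F q).card : ℝ)) ^ (2 * t) := by
        refine add_le_add (mul_le_mul_of_nonneg_left ?_ hx) s8
        linarith

theorem r2_34 : R2 := fun P F x t h => brun34 P (fun q hq => (h q hq).1) F (fun q hq => (h q hq).2) x t

end Pool.Agent.SPM.B34
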