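import Pool.Agent.SPM.Stmts

/-!
# MP_7a4c99_nt: many solutions outside a small set, interface statements
-/

set_option autoImplicit false

namespace Pool.Agent.SPM

/-- R2': the pure sieve with at most `J` exceptions -/
def R2b : Prop := ∀ (P : Finset ℕ) (F : ℕ → Finset ℕ) (x t J : ℕ) (δ : ℝ), 0 ≤ δ →
  (∀ q ∈ P, q.Prime ∧ (∀ r ∈ F q, r < q) ∧ ((F q).card : ℝ) ≤ δ * q) →
  (((Finset.Icc 1 x).filter (fun k => (P.filter (fun q => k % q ∈ F q)).card ≤ J)).card : ℝ) ≤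
    x * ((Real.exp (-(∑ q ∈ P, ((F q).card : ℝ) / q) + J * δ) +
      (∑ q ∈ P, ((F q).card : ℝ) / q) ^ (2 * t + 1) / (2 * t + 1).factorial) * 2 ^ J *
        Real.exp ((∑ q ∈ P, ((F q).card : ℝ) / q) / 2)) +
    (1 + ∑ q ∈ P, ((F q).card : ℝ)) ^ J *
      (1 + (∑ q ∈ P, ((F q).card : ℝ) / q) ^ (2 * t + 1) / (2 * t + 1).factorial +
        (1 + ∑ q ∈ P, ((F q).card : ℝ)) ^ (2 * t))

/-- the main theorem, with many solutions -/
def MainB : Prop := ∀ A : ℕ, ∃ c B : ℝ, 0 < c ∧ ∀ x : ℕ, 2 ≤ x →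
  (((Finset.Icc 2 x).filter (fun k => (N k : ℝ) < Real.log x ^ c)).card : ℝ) ≤ B * x / Real.log x ^ A

end Pool.Agent.SPM
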