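import Pool.Agent.SPM.Asm92a
import Pool.Agent.SPM.Stmts2

/-! Assembly for MP_7a4c99_nt, many solutions, part 1 (helper92): the count with at most `J` exceptions. -/

set_option autoImplicit false

namespace Pool.Agent.SPM

open Finset

theorem fin1 {ε PJ P2 Y : ℝ} (hJ : PJ ≤ Real.exp (Y / 8)) (h2 : P2 ≤ Real.exp (Y / 8)) (h1 : ε ≤ 1) (hY : 0 ≤ Y)
    (h0 : 0 ≤ ε) (hP2 : 0 ≤ P2) : PJ * (1 + ε + P2) ≤ 3 * Real.exp (Y / 2) := by
  have h4 : (1 : ℝ) ≤ Real.exp (Y / 8) := Real.one_le_exp (by linarith)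
  have h3 : 1 + ε + P2 ≤ 3 * Real.exp (Y / 8) := by linarith
  have h5 : PJ * (1 + ε + P2) ≤ Real.exp (Y / 8) * (3 * Real.exp (Y / 8)) :=
    mul_le_mul hJ h3 (by linarith) (by linarith)
  have h6 : Real.exp (Y / 8) * (3 * Real.exp (Y / 8)) = 3 * Real.exp (Y / 8 + Y / 8) := by
    rw [Real.exp_add]; ring
  have h7 : Real.exp (Y / 8 + Y / 8) ≤ Real.exp (Y / 2) := Real.exp_le_exp.2 (by linarith)
  linarith

theorem fin2 {E ε g W v T : ℝ} {J : ℕ} (hg : g ≤ J) (hW : Real.exp (-E / 2) ≤ W) (hε : ε ≤ Real.exp (-(3 * T)))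
    (h8 : 8 * E ≤ T) (hE : 0 ≤ E) (hv : v ≤ T) (hW0 : 0 ≤ W) :
    (Real.exp (-E + g) + ε) * 2 ^ J * Real.exp (E / 2) ≤ 6 ^ J * (W + Real.exp (-v)) := by
  have e1 : Real.exp (-E + g) * 2 ^ J * Real.exp (E / 2) ≤ 6 ^ J * W := by
    have h3 : Real.exp (-E + g) * 2 ^ J * Real.exp (E / 2) = (Real.exp g * 2 ^ J) * Real.exp (-E / 2) := by
      have h5 : Real.exp (-E / 2) = Real.exp (-E) * Real.exp (E / 2) := by
        rw [← Real.exp_add]
        ring_nf
      rw [h5, Real.exp_add]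
      ring
    have h4 : Real.exp g * 2 ^ J ≤ 6 ^ J := by
      have h5 : Real.exp g ≤ Real.exp 1 ^ J := by
        rw [← Real.exp_nat_mul, mul_one]
        exact Real.exp_le_exp.2 hg
      have h6 : (Real.exp 1 * 2) ^ J ≤ 6 ^ J := by
        apply pow_le_pow_left₀ (by positivity)
        have := Real.exp_one_lt_d9
        linarith
      rw [mul_pow] at h6
      refine le_trans ?_ h6
      exact mul_le_mul_of_nonneg_right h5 (by positivity)
    rw [h3]
    exact mul_le_mul h4 hW (Real.exp_pos _).le (by positivity)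
  have e2 : ε * 2 ^ J * Real.exp (E / 2) ≤ 6 ^ J * Real.exp (-v) := by
    have h3 : (2 : ℝ) ^ J ≤ 6 ^ J := pow_le_pow_left₀ (by norm_num) (by norm_num) _
    have h4 : Real.exp (-(3 * T)) * Real.exp (E / 2) ≤ Real.exp (-v) := by
      rw [← Real.exp_add]
      exact Real.exp_le_exp.2 (by linarith)
    have h5 : ε * 2 ^ J * Real.exp (E / 2) ≤ Real.exp (-(3 * T)) * 2 ^ J * Real.exp (E / 2) := by
      apply mul_le_mul_of_nonneg_right _ (Real.exp_pos _).le
      exact mul_le_mul_of_nonneg_right hε (by positivity)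
    have h6 : Real.exp (-(3 * T)) * 2 ^ J * Real.exp (E / 2) = 2 ^ J * (Real.exp (-(3 * T)) * Real.exp (E / 2)) := by
      ring
    rw [h6] at h5
    exact h5.trans (mul_le_mul h3 h4 (by positivity) (by positivity))
  have e3 : (Real.exp (-E + g) + ε) * 2 ^ J * Real.exp (E / 2) =
      Real.exp (-E + g) * 2 ^ J * Real.exp (E / 2) + ε * 2 ^ J * Real.exp (E / 2) := by ring
  rw [e3, mul_add]
  exact add_le_add e1 e2

theorem fin3 {E : ℝ} {t : ℕ} (hE : 0 ≤ E) (h8 : 8 * E ≤ t) :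
    E ^ (2 * t + 1) / (2 * t + 1).factorial ≤ Real.exp (-(3 * t)) := by
  have h3 := Real.pow_div_factorial_le_exp (8 * E) (by linarith) (2 * t + 1)
  have h4 : E ^ (2 * t + 1) / (2 * t + 1).factorial =
      ((8 * E) ^ (2 * t + 1) / (2 * t + 1).factorial) / 8 ^ (2 * t + 1) := by
    rw [mul_pow]
    field_simp
  have h5 : Real.exp (2 * (2 * t + 1 : ℕ)) ≤ (8 : ℝ) ^ (2 * t + 1) := by
    have h6 : Real.exp (2 * (2 * t + 1 : ℕ)) = (Real.exp 2) ^ (2 * t + 1) := by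
      rw [← Real.exp_nat_mul]
      ring_nf
    rw [h6]
    have h7 : Real.exp 2 ≤ 8 := by
      have h8 : Real.exp 2 = Real.exp 1 * Real.exp 1 := by
        rw [← Real.exp_add]
        norm_num
      have h9 := Real.exp_one_lt_d9
      have h10 := Real.exp_pos 1
      nlinarith
    exact pow_le_pow_left₀ (Real.exp_pos _).le h7 _
  have h8pos : (0 : ℝ) < 8 ^ (2 * t + 1) := by positivity
  rw [h4, div_le_iff₀ h8pos]
  refine h3.trans ?_
  have h6 : Real.exp (8 * E) ≤ Real.exp (-(3 * t)) * Real.exp (2 * (2 * t + 1 : ℕ)) := by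
    rw [← Real.exp_add]
    apply Real.exp_le_exp.2
    push_cast
    linarith
  refine h6.trans ?_
  gcongr

theorem boundB (h2 : R2b) {M a : ℕ} (hM2 : 2 ≤ M) (c : ℕ → ℝ) (hc : ∀ m : ℕ, 1 ≤ m → ∀ z : ℕ, 3 ≤ z →
    Real.log (Real.log z) / (4 * m.totient) - c m ≤
      ∑ q ∈ (Icc 1 z).filter (fun q => q.Prime ∧ m ∣ q + 1), (1 : ℝ) / q)
    (hK : 4 * (a : ℝ) ≤ ∑ m ∈ Icc 2 M, 1 / (4 * (m.totient : ℝ))) {x J : ℕ} {v : ℝ} (hv : 2 ≤ v)
    (hJv : (J : ℝ) * ((M + 1) * v) ≤ Real.log x / 8)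
    (hvx : 34 * M * (M + 1) * v ^ 2 ≤ Real.log x / 8) :
    (((Icc 1 x).filter (fun k => ((Pz M ⌊Real.exp v⌋₊).filter (fun q => k % q ∈ Fq (Icc 2 M) q)).card ≤ J)).card : ℝ) ≤
      x * (6 ^ J * (Real.exp ((∑ m ∈ Icc 2 M, (|c m| + (M : ℝ) ^ 2)) / 2) * (2 / v) ^ (2 * a) + Real.exp (-v))) +
        3 * Real.exp (Real.log x / 2) := by
  have hM1 : (2 : ℝ) ≤ M := by exact_mod_cast hM2
  set T := Icc 2 M with hTdef
  have hT : T ⊆ Icc 2 M := Subset.refl _
  set z := ⌊Real.exp v⌋₊ with hz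
  have hev : v + 1 ≤ Real.exp v := Real.add_one_le_exp v
  have hz3 : 3 ≤ z := Nat.le_floor (by push_cast; linarith)
  have hzle : (z : ℝ) ≤ Real.exp v := Nat.floor_le (Real.exp_pos _).le
  have hzge : Real.exp v < z + 1 := Nat.lt_floor_add_one _
  have hz0 : (0 : ℝ) < z := by exact_mod_cast (show 0 < z by omega)
  have hlz : Real.log z ≤ v := by
    rw [Real.log_le_iff_le_exp hz0]
    exact hzle
  have hlz' : v / 2 ≤ Real.log z := by
    rw [Real.le_log_iff_exp_le hz0]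
    have h3 : Real.exp v = Real.exp (v / 2) * Real.exp (v / 2) := by
      rw [← Real.exp_add]
      ring_nf
    have h4 : v / 2 + 1 ≤ Real.exp (v / 2) := Real.add_one_le_exp _
    nlinarith
  have hv2 : (1 : ℝ) ≤ v / 2 := by linarith
  have hll : Real.log (v / 2) ≤ Real.log (Real.log z) := Real.log_le_log (by linarith) hlz'
  have hll0 : 0 ≤ Real.log (v / 2) := Real.log_nonneg hv2
  set K' : ℝ := ∑ m ∈ Icc 2 M, (|c m| + (M : ℝ) ^ 2) with hK'
  have hE0 := EE_nonneg M z T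
  have hE1 : EE M z T ≤ M * (1 + v) := by
    refine (EE_le hT).trans ?_
    gcongr
  have hE2 : 4 * (a : ℝ) * Real.log (v / 2) - K' ≤ EE M z T := by
    have h3 := EE_ge c hc hT hz3
    have h4 : 4 * (a : ℝ) * Real.log (v / 2) ≤ Real.log (Real.log z) * ∑ m ∈ T, 1 / (4 * (m.totient : ℝ)) := by
      calc 4 * (a : ℝ) * Real.log (v / 2) ≤ 4 * (a : ℝ) * Real.log (Real.log z) := by gcongr
        _ = Real.log (Real.log z) * (4 * (a : ℝ)) := by ring
        _ ≤ Real.log (Real.log z) * ∑ m ∈ T, 1 / (4 * (m.totient : ℝ)) := by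
          apply mul_le_mul_of_nonneg_left hK
          linarith
    linarith
  have hexpE : Real.exp (-EE M z T / 2) ≤ Real.exp (K' / 2) * (2 / v) ^ (2 * a) := by
    have h3 : Real.exp (-EE M z T / 2) ≤ Real.exp (K' / 2 - 2 * (a : ℝ) * Real.log (v / 2)) := by
      apply Real.exp_le_exp.2
      linarith
    refine h3.trans (le_of_eq ?_)
    rw [sub_eq_add_neg, Real.exp_add]
    congr 1
    have h4 : Real.exp (2 * (a : ℝ) * Real.log (v / 2)) = (v / 2) ^ (2 * a) := by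
      have h5 : 2 * (a : ℝ) * Real.log (v / 2) = ((2 * a : ℕ) : ℝ) * Real.log (v / 2) := by push_cast; ring
      rw [h5, ← Real.log_pow, Real.exp_log (by positivity)]
    rw [Real.exp_neg, h4, ← inv_pow, inv_div]
  set t := ⌈8 * (M : ℝ) * (1 + v)⌉₊ with ht
  have ht1 : 8 * (M : ℝ) * (1 + v) ≤ t := Nat.le_ceil _
  have ht2 : (t : ℝ) < 8 * (M : ℝ) * (1 + v) + 1 := Nat.ceil_lt_add_one (by positivity)
  have htv : v ≤ t := by nlinarith
  have h8E : 8 * EE M z T ≤ t := by linarith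
  have heps : (EE M z T) ^ (2 * t + 1) / (2 * t + 1).factorial ≤ Real.exp (-(3 * t)) := fin3 hE0 h8E
  have heps0 : 0 ≤ (EE M z T) ^ (2 * t + 1) / (2 * t + 1).factorial := by positivity
  have heps1 : (EE M z T) ^ (2 * t + 1) / (2 * t + 1).factorial ≤ 1 := by
    refine heps.trans ?_
    rw [Real.exp_le_one_iff]
    have : (0 : ℝ) ≤ t := Nat.cast_nonneg _
    linarith
  -- the sum S
  have hS0 : (0 : ℝ) ≤ ∑ q ∈ Pz M z, ((Fq T q).card : ℝ) := sum_nonneg fun q _ => by positivity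
  have hS1 : 1 + ∑ q ∈ Pz M z, ((Fq T q).card : ℝ) ≤ Real.exp (M + v) := by
    have h4 := card_sum_le (z := z) hT
    have h5 : (M : ℝ) + 1 ≤ Real.exp M := Real.add_one_le_exp _
    have h6 : (1 : ℝ) ≤ Real.exp v := by linarith
    have h7 : (M : ℝ) * z ≤ M * Real.exp v := by gcongr
    have h8 : ((M : ℝ) + 1) * Real.exp v ≤ Real.exp M * Real.exp v := by gcongr
    rw [Real.exp_add]
    linarith
  have hMv : (M : ℝ) + v ≤ (M + 1) * v := by nlinarith
  have hpowJ : (1 + ∑ q ∈ Pz M z, ((Fq T q).card : ℝ)) ^ J ≤ Real.exp (Real.log x / 8) := by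
    calc (1 + ∑ q ∈ Pz M z, ((Fq T q).card : ℝ)) ^ J ≤ (Real.exp (M + v)) ^ J :=
          pow_le_pow_left₀ (by linarith) hS1 _
      _ = Real.exp (J * (M + v)) := by rw [← Real.exp_nat_mul]
      _ ≤ Real.exp (Real.log x / 8) := by
          apply Real.exp_le_exp.2
          refine le_trans ?_ hJv
          gcongr
  have hthird : (1 + ∑ q ∈ Pz M z, ((Fq T q).card : ℝ)) ^ (2 * t) ≤ Real.exp (Real.log x / 8) := by
    calc (1 + ∑ q ∈ Pz M z, ((Fq T q).card : ℝ)) ^ (2 * t) ≤ (Real.exp (M + v)) ^ (2 * t) :=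
          pow_le_pow_left₀ (by linarith) hS1 _
      _ = Real.exp ((2 * t : ℕ) * (M + v)) := by rw [← Real.exp_nat_mul]
      _ ≤ Real.exp (Real.log x / 8) := by
          apply Real.exp_le_exp.2
          refine le_trans ?_ hvx
          push_cast
          have h5 : (t : ℝ) ≤ 13 * M * v := by nlinarith
          have h7 : 0 ≤ (t : ℝ) := Nat.cast_nonneg _
          have h8 : (0 : ℝ) ≤ (M + 1) * v := by positivity
          calc 2 * (t : ℝ) * (M + v) ≤ 2 * (13 * M * v) * ((M + 1) * v) := by gcongr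
            _ ≤ 34 * M * (M + 1) * v ^ 2 := by
              have : (0 : ℝ) ≤ M * (M + 1) * v ^ 2 := by positivity
              nlinarith
  have hR := h2 (Pz M z) (Fq T) x t J (1 / M) (by positivity) (fun q hq => ⟨(mem_Pz.1 hq).1, Fq_lt (mem_Pz.1 hq).1, by
    have h3 : ((Fq T q).card : ℝ) ≤ M := by exact_mod_cast Fq_le hT q
    have h4 : (M : ℝ) ^ 2 ≤ q := by exact_mod_cast (mem_Pz.1 hq).2.1.le
    have h5 : (M : ℝ) ≤ 1 / M * q := by
      rw [one_div, ← div_eq_inv_mul, le_div_iff₀ (by linarith)]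
      linarith
    linarith⟩)
  have hdef : EE M z T = ∑ q ∈ Pz M z, ((Fq T q).card : ℝ) / q := rfl
  rw [← hdef] at hR
  have hx0 : (0 : ℝ) ≤ x := Nat.cast_nonneg _
  refine hR.trans ?_
  have hL0 : 0 ≤ Real.log x := by
    have : (0 : ℝ) ≤ 34 * M * (M + 1) * v ^ 2 := by positivity
    linarith
  have hg : (J : ℝ) * (1 / M) ≤ J := by
    have h6 : (1 : ℝ) / M ≤ 1 := by
      rw [div_le_one (by linarith)]
      linarith
    calc (J : ℝ) * (1 / M) ≤ J * 1 := mul_le_mul_of_nonneg_left h6 (Nat.cast_nonneg _)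
      _ = J := mul_one _
  have hW0 : 0 ≤ Real.exp (K' / 2) * (2 / v) ^ (2 * a) := by
    have : 0 < v := by linarith
    positivity
  have hmain := fin2 hg hexpE heps h8E hE0 htv hW0
  have hlast := fin1 hpowJ hthird heps1 hL0 heps0 (pow_nonneg (by linarith) _)
  exact add_le_add (mul_le_mul_of_nonneg_left hmain hx0) hlast

end Pool.Agent.SPM
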