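import Pool.Agent.SPM.Sol46

/-!
# MP_7a4c99_nt (helper46): many prime divisors of `m (k + m - 3) + 1` give many sum = product multisets
-/

set_option autoImplicit false

namespace Pool.Agent.SPM

open Sol46

namespace Many46

/-- a divisor congruent to `-1` gives the two large entries -/
lemma exists_ab' {M m k q : ℕ} (hk : 3 ≤ k) (hm : 2 ≤ m) (hmM : m ≤ M) (hq : M ^ 2 < q) (hqk : q ^ 2 ≤ k)
    (h1 : m ∣ q + 1) (h2 : q ∣ m * (k + m - 3) + 1) :
    ∃ a b : ℕ, m * a = q + 1 ∧ a ≤ b ∧ M < a ∧ m * (a * b) = m + (a + (b + (k - 3))) := by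
  obtain ⟨a, ha⟩ := h1
  obtain ⟨e, he⟩ := h2
  obtain ⟨j, rfl⟩ : ∃ j, k = j + 3 := ⟨k - 3, by omega⟩
  have e1 : j + 3 + m - 3 = j + m := by omega
  rw [e1] at he
  have hm0 : 0 < m := by omega
  have h3 : m ∣ e + 1 := by
    have h4 : m ∣ q * e + e := ⟨a * e, by rw [← mul_assoc, ← ha]; ring⟩
    rw [← he] at h4
    have h5 : m * (j + m) + 1 + e = m * (j + m) + (e + 1) := by ring
    rw [h5] at h4
    exact (Nat.dvd_add_right (Dvd.intro _ rfl)).1 h4
  obtain ⟨b, hb⟩ := h3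
  have hMm : m * M ≤ M ^ 2 := by rw [pow_two]; exact Nat.mul_le_mul_right M hmM
  have hqe : q ≤ e := by
    by_contra hcon
    push Not at hcon
    have h6 : q * e < q * q := Nat.mul_lt_mul_of_pos_left hcon (by omega)
    rw [← he] at h6
    nlinarith
  refine ⟨a, b, ha.symm, ?_, ?_, ?_⟩
  · have : m * a ≤ m * b := by omega
    exact Nat.le_of_mul_le_mul_left this hm0
  · have : m * M < m * a := by omega
    exact Nat.lt_of_mul_lt_mul_left this
  · have h7 : m * (m * (a * b)) = m * (m + (a + (b + j))) := by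
      have h8 : (m * a) * (m * b) = (q + 1) * (e + 1) := by rw [ha, hb]
      have h9 : (q + 1) * (e + 1) = m * (j + m) + m * a + m * b := by
        rw [← ha, ← hb]
        linear_combination -he
      linear_combination h8 + h9
    have h10 := Nat.eq_of_mul_eq_mul_left hm0 h7
    rw [h10]
    simp

/-- the multiset of a divisor -/
lemma exists_sol' {M m k q : ℕ} (hk : 3 ≤ k) (hm : 2 ≤ m) (hmM : m ≤ M) (hq : M ^ 2 < q) (hqk : q ^ 2 ≤ k)
    (h1 : m ∣ q + 1) (h2 : q ∣ m * (k + m - 3) + 1) :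
    ∃ s : Multiset ℕ, IsSP k s ∧ ∃ a b : ℕ, m * a = q + 1 ∧ a ≤ b ∧ M < a ∧ a ∈ s ∧
      ∀ x ∈ s, M < x → x = a ∨ x = b := by
  obtain ⟨a, b, h3, h4, h5, h6⟩ := exists_ab' hk hm hmM hq hqk h1 h2
  refine ⟨m ::ₘ a ::ₘ b ::ₘ Multiset.replicate (k - 3) 1, ⟨?_, ?_, ?_⟩, a, b, h3, h4, h5, ?_, ?_⟩
  · simp only [Multiset.card_cons, Multiset.card_replicate]
    omega
  · intro x hx
    simp only [Multiset.mem_cons, Multiset.mem_replicate] at hx
    omega
  · simp only [Multiset.prod_cons, Multiset.sum_cons, Multiset.prod_replicate, Multiset.sum_replicate, one_pow,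
      mul_one, smul_eq_mul]
    exact h6
  · simp
  · intro x hx hMx
    simp only [Multiset.mem_cons, Multiset.mem_replicate] at hx
    omega

/-- an odd subset for every subset of the set without one element -/
def oddify (q₀ : ℕ) (U : Finset ℕ) : Finset ℕ := if U.card % 2 = 0 then insert q₀ U else U

lemma oddify_inj {q₀ : ℕ} {U V : Finset ℕ} (hU : q₀ ∉ U) (hV : q₀ ∉ V) (h : oddify q₀ U = oddify q₀ V) : U = V := by
  unfold oddify at h
  split_ifs at h with h1 h2 h2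
  · have := congrArg (Finset.erase · q₀) h
    simpa [Finset.erase_insert hU, Finset.erase_insert hV] using this
  · exact absurd (h ▸ Finset.mem_insert_self q₀ U) hV
  · exact absurd (h.symm ▸ Finset.mem_insert_self q₀ V) hU
  · exact h

lemma oddify_odd {q₀ : ℕ} {U : Finset ℕ} (hU : q₀ ∉ U) : (oddify q₀ U).card % 2 = 1 := by
  unfold oddify
  split_ifs with h1
  · rw [Finset.card_insert_of_notMem hU]
    omega
  · omega

lemma oddify_sub {q₀ : ℕ} {U S : Finset ℕ} (hS : q₀ ∈ S) (hU : U ⊆ S) : oddify q₀ U ⊆ S := by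
  unfold oddify
  split_ifs
  · exact Finset.insert_subset hS hU
  · exact hU

/-- products of an odd number of primes congruent to `-1` -/
lemma dvd_prod {m : ℕ} (U : Finset ℕ) (hU : ∀ q ∈ U, m ∣ q + 1) (hodd : U.card % 2 = 1) : m ∣ (∏ q ∈ U, q) + 1 := by
  have h : ((∏ q ∈ U, q : ℕ) : ZMod m) = (-1) ^ U.card := by
    rw [Nat.cast_prod, ← Finset.prod_const]
    refine Finset.prod_congr rfl fun q hq => ?_
    have h1 := (ZMod.natCast_eq_zero_iff _ _).2 (hU q hq)
    push_cast at h1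
    exact eq_neg_of_add_eq_zero_left h1
  rw [← ZMod.natCast_eq_zero_iff]
  push_cast
  push_cast at h
  rw [h, Odd.neg_one_pow (Nat.odd_iff.2 hodd)]
  ring

end Many46

open Many46 in
/-- **R3'.** -/
theorem many46 (M k m : ℕ) (S : Finset ℕ) (hk : 3 ≤ k) (hm : 2 ≤ m) (hmM : m ≤ M) (hS : S.Nonempty)
    (hp : ∀ q ∈ S, q.Prime ∧ M ^ 2 < q ∧ m ∣ q + 1 ∧ q ∣ m * (k + m - 3) + 1) (hk2 : (∏ q ∈ S, q) ^ 2 ≤ k) :
    2 ^ (S.card - 1) ≤ N k := by
  classical
  obtain ⟨q₀, hq₀⟩ := hS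
  have hne : ∀ U : Finset ℕ, U ⊆ S.erase q₀ → q₀ ∉ U := fun U hU h => Finset.notMem_erase q₀ S (hU h)
  have hfac : ∀ U : Finset ℕ, U ⊆ S → ∏ q ∈ U, q ≤ ∏ q ∈ S, q := fun U hU =>
    Finset.prod_le_prod_of_subset_of_one_le' hU fun q hq _ => (hp q hq).1.one_le
  have hex : ∀ U ∈ (S.erase q₀).powerset, ∃ s : Multiset ℕ, IsSP k s ∧ ∃ a b : ℕ,
      m * a = (∏ q ∈ oddify q₀ U, q) + 1 ∧ a ≤ b ∧ M < a ∧ a ∈ s ∧ ∀ x ∈ s, M < x → x = a ∨ x = b := by
    intro U hU
    have hU1 := Finset.mem_powerset.1 hU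
    have hsub : oddify q₀ U ⊆ S := oddify_sub hq₀ (hU1.trans (Finset.erase_subset _ _))
    have hodd := oddify_odd (hne U hU1)
    obtain ⟨q₁, hq₁⟩ : (oddify q₀ U).Nonempty := by
      rw [← Finset.card_pos]; omega
    apply exists_sol' hk hm hmM
    · have h1 : q₁ ≤ ∏ q ∈ oddify q₀ U, q :=
        Finset.single_le_prod' (f := fun q => q) (fun q hq => (hp q (hsub hq)).1.one_le) hq₁
      exact (hp q₁ (hsub hq₁)).2.1.trans_le h1
    · exact (Nat.pow_le_pow_left (hfac _ hsub) 2).trans hk2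
    · exact dvd_prod _ (fun q hq => (hp q (hsub hq)).2.2.1) hodd
    · apply Finset.prod_primes_dvd
      · intro q hq
        exact (hp q (hsub hq)).1.prime
      · intro q hq
        exact (hp q (hsub hq)).2.2.2
  choose! f hf using hex
  have hcard : ((S.erase q₀).powerset).card = 2 ^ (S.card - 1) := by
    rw [Finset.card_powerset, Finset.card_erase_of_mem hq₀]
  rw [← hcard, ← Set.ncard_coe_finset]
  apply Set.ncard_le_ncard_of_injOn f _ _ (fin (by omega))
  · intro U hU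
    exact (hf U hU).1
  · intro U hU V hV he
    obtain ⟨a, b, h1, h2, h3, h4, h5⟩ := (hf U hU).2
    obtain ⟨a', b', h1', h2', h3', h4', h5'⟩ := (hf V hV).2
    have hU1 := Finset.mem_powerset.1 (Finset.mem_coe.1 hU)
    have hV1 := Finset.mem_powerset.1 (Finset.mem_coe.1 hV)
    have g1 := h5' a (he ▸ h4) h3
    have g2 := h5 a' (he.symm ▸ h4') h3'
    have g3 : a = a' := by omega
    have g4 : ∏ q ∈ oddify q₀ U, q = ∏ q ∈ oddify q₀ V, q := by
      have : (∏ q ∈ oddify q₀ U, q) + 1 = (∏ q ∈ oddify q₀ V, q) + 1 := by rw [← h1, ← h1', g3]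
      omega
    have k1 : ∀ W : Finset ℕ, W ⊆ S → (∏ q ∈ W, q).primeFactors = W := fun W hW =>
      Nat.primeFactors_prod fun q hq => (hp q (hW hq)).1
    have sU : oddify q₀ U ⊆ S := oddify_sub hq₀ (hU1.trans (Finset.erase_subset _ _))
    have sV : oddify q₀ V ⊆ S := oddify_sub hq₀ (hV1.trans (Finset.erase_subset _ _))
    have g5 : oddify q₀ U = oddify q₀ V := by rw [← k1 _ sU, g4, k1 _ sV]
    exact oddify_inj (hne U hU1) (hne V hV1) g5

end Pool.Agent.SPM
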