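import Pool.Agent.SPM.Asm92a
import Pool.Agent.SPM.Many46

/-! Few solutions give few exceptional primes (helper92). -/

set_option autoImplicit false

namespace Pool.Agent.SPM

open Finset

/-- few solutions, so few exceptions -/
theorem few_exc {M t₁ z k : ℕ} (ht : 1 ≤ t₁) (hk3 : 3 ≤ k) (hk : z ^ (2 * t₁) ≤ k) (hN : N k < 2 ^ (t₁ - 1)) :
    ((Pz M z).filter (fun q => k % q ∈ Fq (Icc 2 M) q)).card ≤ M * t₁ := by
  classical
  have hsub : (Pz M z).filter (fun q => k % q ∈ Fq (Icc 2 M) q) ⊆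
      (Icc 2 M).biUnion (fun m => (Pz M z).filter (fun q => m ∣ q + 1 ∧ q ∣ m * (k + m - 3) + 1)) := by
    intro q hq
    rw [mem_filter] at hq
    obtain ⟨hq1, hq2, -⟩ := mem_Pz.1 hq.1
    obtain ⟨m, hm, h1, h2⟩ := of_mem_Fq (Subset.refl _) hq1 hq2 hk3 hq.2
    rw [mem_biUnion]
    exact ⟨m, hm, by rw [mem_filter]; exact ⟨hq.1, h1, h2⟩⟩
  refine (card_le_card hsub).trans (card_biUnion_le.trans ?_)
  have h1 : ∀ m ∈ Icc 2 M, ((Pz M z).filter (fun q => m ∣ q + 1 ∧ q ∣ m * (k + m - 3) + 1)).card ≤ t₁ := by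
    intro m hm
    rw [mem_Icc] at hm
    by_contra hcon
    push Not at hcon
    obtain ⟨S, hS, hcard⟩ := exists_subset_card_eq hcon.le
    have h2 : ∀ q ∈ S, q.Prime ∧ M ^ 2 < q ∧ m ∣ q + 1 ∧ q ∣ m * (k + m - 3) + 1 := by
      intro q hq
      have h3 := mem_filter.1 (hS hq)
      obtain ⟨h4, h5, -⟩ := mem_Pz.1 h3.1
      exact ⟨h4, h5, h3.2.1, h3.2.2⟩
    have h3 : (∏ q ∈ S, q) ^ 2 ≤ k := by
      have h4 : ∏ q ∈ S, q ≤ z ^ t₁ := by
        rw [← hcard]
        apply prod_le_pow_card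
        intro q hq
        exact (mem_Pz.1 (mem_filter.1 (hS hq)).1).2.2
      calc (∏ q ∈ S, q) ^ 2 ≤ (z ^ t₁) ^ 2 := Nat.pow_le_pow_left h4 2
        _ = z ^ (2 * t₁) := by rw [← pow_mul, mul_comm]
        _ ≤ k := hk
    have hne : S.Nonempty := by
      rw [← card_pos]
      omega
    have h4 := many46 M k m S hk3 hm.1 hm.2 hne h2 h3
    rw [hcard] at h4
    omega
  refine (sum_le_sum h1).trans ?_
  rw [sum_const, smul_eq_mul, Nat.card_Icc]
  exact Nat.mul_le_mul_right _ (by omega)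

/-- the parameters of the assembly -/
theorem powers92 {A M t₁ : ℕ} {d u Lx K x : ℝ} (hM1 : 2 ≤ (M : ℝ)) (hd0 : 0 < d) (hs0 : 0 < u) (hL : 0 < Lx)
    (hsq : u ^ 2 = Lx) (hK0 : 0 < K) (hx0 : 0 < x)
    (ht2 : (t₁ : ℝ) ≤ Real.log Lx / (2 * M) + 2) (hll0 : 0 ≤ Real.log Lx) (hx : Real.exp Lx = x) :
    (6 : ℝ) ^ (M * t₁) * (K * (2 / (d * u)) ^ (2 * (A + 1)) + Real.exp (-(d * u))) ≤
      (Real.exp (4 * M) * (K * (2 / d) ^ (2 * (A + 1))) +
        Real.exp (4 * M) * ((2 * (A + 1)).factorial / d ^ (2 * (A + 1)))) / Lx ^ A ∧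
    Real.exp (Lx / 2) ≤ x * (A.factorial * 2 ^ A / Lx ^ A) := by
  have hv0 : 0 < d * u := by positivity
  have hLA : 0 < Lx ^ A := by positivity
  constructor
  · have e1 : (d * u) ^ (2 * (A + 1)) = d ^ (2 * (A + 1)) * (Lx * Lx ^ A) := by
      rw [mul_pow, pow_mul u, hsq, pow_succ Lx A]
      ring
    have e6 : (6 : ℝ) ^ (M * t₁) ≤ Real.exp (4 * M) * Lx := by
      have h7 : (6 : ℝ) ≤ Real.exp 2 := by
        have h8 : Real.exp 2 = Real.exp 1 * Real.exp 1 := by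
          rw [← Real.exp_add]
          norm_num
        have h9 := Real.exp_one_gt_d9
        nlinarith
      calc (6 : ℝ) ^ (M * t₁) ≤ Real.exp 2 ^ (M * t₁) := pow_le_pow_left₀ (by norm_num) h7 _
        _ = Real.exp ((M * t₁ : ℕ) * 2) := by rw [← Real.exp_nat_mul]
        _ ≤ Real.exp (4 * M + Real.log Lx) := by
          apply Real.exp_le_exp.2
          push_cast
          have h8 : (M : ℝ) * t₁ ≤ M * (Real.log Lx / (2 * M) + 2) :=
            mul_le_mul_of_nonneg_left ht2 (by linarith)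
          have h9 : (M : ℝ) * (Real.log Lx / (2 * M) + 2) = Real.log Lx / 2 + 2 * M := by
            field_simp
          linarith
        _ = Real.exp (4 * M) * Lx := by rw [Real.exp_add, Real.exp_log hL]
    have e2 : (2 / (d * u)) ^ (2 * (A + 1)) = (2 / d) ^ (2 * (A + 1)) / (Lx * Lx ^ A) := by
      rw [← div_div, div_pow (2 / d) u, pow_mul u, hsq, pow_succ Lx A, mul_comm (Lx ^ A)]
    have e3 : Real.exp (-(d * u)) ≤ (2 * (A + 1)).factorial / d ^ (2 * (A + 1)) / (Lx * Lx ^ A) := by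
      have h6 := Real.pow_div_factorial_le_exp (d * u) hv0.le (2 * (A + 1))
      rw [e1] at h6
      rw [Real.exp_neg, div_div, inv_le_comm₀ (Real.exp_pos _) (by positivity), inv_div]
      exact h6
    have e5 : (6 : ℝ) ^ (M * t₁) * (K * (2 / (d * u)) ^ (2 * (A + 1)) + Real.exp (-(d * u))) ≤
        (Real.exp (4 * M) * Lx) * (K * ((2 / d) ^ (2 * (A + 1)) / (Lx * Lx ^ A)) +
          (2 * (A + 1)).factorial / d ^ (2 * (A + 1)) / (Lx * Lx ^ A)) := by
      rw [← e2]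
      apply mul_le_mul e6 _ (by positivity) (by positivity)
      exact add_le_add_right e3 _
    refine e5.trans (le_of_eq ?_)
    field_simp
  · have h6 := Real.pow_div_factorial_le_exp (Lx / 2) (by positivity) A
    have h7 : Real.exp (Lx / 2) * Real.exp (Lx / 2) = x := by
      rw [← Real.exp_add, add_halves, hx]
    have h8 : Lx ^ A / (A.factorial * 2 ^ A) ≤ Real.exp (Lx / 2) := by
      refine le_trans (le_of_eq ?_) h6
      rw [div_pow]
      field_simp
    have h9 : (0 : ℝ) < Lx ^ A / (A.factorial * 2 ^ A) := by positivity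
    have h10 : Real.exp (Lx / 2) * (Lx ^ A / (A.factorial * 2 ^ A)) ≤ x := by
      calc Real.exp (Lx / 2) * (Lx ^ A / (A.factorial * 2 ^ A)) ≤ Real.exp (Lx / 2) * Real.exp (Lx / 2) :=
            mul_le_mul_of_nonneg_left h8 (Real.exp_pos _).le
        _ = x := h7
    have h11 : (A.factorial * 2 ^ A / Lx ^ A : ℝ) = (Lx ^ A / (A.factorial * 2 ^ A))⁻¹ := by rw [inv_div]
    rw [h11, ← div_eq_mul_inv, le_div_iff₀ h9]
    exact h10

end Pool.Agent.SPM
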