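import Pool.Agent.SPM.Stmts2
import Pool.Agent.SPM.Brun34

/-!
# MP_7a4c99_nt: the pure Brun sieve with at most `J` exceptions (helper34)
-/

set_option autoImplicit false

namespace Pool.Agent.SPM.B34

open Finset

/-- the sieve on the numbers which are in the classes of all `q ∈ D` -/
theorem sieveD (P D : Finset ℕ) (hd : Disjoint D P) (F : ℕ → Finset ℕ) (hP : ∀ q ∈ P, q.Prime)
    (hD : ∀ q ∈ D, q.Prime) (hFP : ∀ q ∈ P, ∀ r ∈ F q, r < q) (hFD : ∀ q ∈ D, ∀ r ∈ F q, r < q)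
    (x t : ℕ) :
    (((Finset.Ioc 0 x).filter (fun k => (∀ q ∈ D, k % q ∈ F q) ∧ ∀ q ∈ P, k % q ∉ F q)).card : ℝ) ≤
      x * (∏ q ∈ D, ((F q).card : ℝ) / q) * (Real.exp (-∑ q ∈ P, ((F q).card : ℝ) / q) +
        (∑ q ∈ P, ((F q).card : ℝ) / q) ^ (2 * t + 1) / (2 * t + 1).factorial) +
      (∏ q ∈ D, ((F q).card : ℝ)) * (1 + ∑ q ∈ P, ((F q).card : ℝ)) ^ (2 * t) := by
  classical
  set h : ℕ → ℝ := fun q => ((F q).card : ℝ) / q with hh
  have h0 : ∀ q ∈ P, 0 ≤ h q := fun q _ => by rw [hh]; positivity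
  have h1 : ∀ q ∈ P, h q ≤ 1 := by
    intro q hq
    have hc : (F q).card ≤ q := by
      have : F q ⊆ Finset.range q := fun r hr => Finset.mem_range.2 (hFP q hq r hr)
      simpa using Finset.card_le_card this
    have hq0 : (0 : ℝ) < q := by exact_mod_cast (hP q hq).pos
    rw [hh]
    simp only
    rw [div_le_one hq0]
    exact_mod_cast hc
  set K : Finset ℕ := (Finset.Ioc 0 x).filter (fun k => ∀ q ∈ D, k % q ∈ F q) with hK
  have hsplit : (Finset.Ioc 0 x).filter (fun k => (∀ q ∈ D, k % q ∈ F q) ∧ ∀ q ∈ P, k % q ∉ F q) =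
      K.filter (fun k => ∀ q ∈ P, k % q ∉ F q) := by
    rw [hK, Finset.filter_filter]
  rw [hsplit]
  -- indicator
  set ι : ℕ → ℕ → ℝ := fun k q => if k % q ∈ F q then 1 else 0 with hι
  have hι0 : ∀ k, ∀ q ∈ P, 0 ≤ ι k q := by
    intro k q _
    rw [hι]
    simp only
    split_ifs <;> norm_num
  have hι1 : ∀ k, ∀ q ∈ P, ι k q ≤ 1 := by
    intro k q _
    rw [hι]
    simp only
    split_ifs <;> norm_num
  have s1 : ((K.filter (fun k => ∀ q ∈ P, k % q ∉ F q)).card : ℝ) =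
      ∑ k ∈ K, ∏ q ∈ P, (1 - ι k q) := by
    rw [Finset.card_filter]
    push_cast
    apply Finset.sum_congr rfl
    intro k _
    by_cases hk : ∀ q ∈ P, k % q ∉ F q
    · rw [if_pos hk]
      symm
      apply Finset.prod_eq_one
      intro q hq
      rw [hι]
      simp only
      rw [if_neg (hk q hq), sub_zero]
    · rw [if_neg hk]
      push Not at hk
      obtain ⟨q, hq, hkq⟩ := hk
      symm
      apply Finset.prod_eq_zero hq
      rw [hι]
      simp only
      rw [if_pos hkq, sub_self]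
  have s2 : ∀ k, ∏ q ∈ P, (1 - ι k q) ≤ G P (2 * t) (fun q => - ι k q) := by
    intro k
    have := (bonf P (ι k) (hι0 k) (hι1 k) (2 * t)).1
    rw [pow_mul] at this
    norm_num at this
    exact this
  have s3 : ∑ k ∈ K, G P (2 * t) (fun q => - ι k q) =
      ∑ T ∈ P.powerset, if T.card ≤ 2 * t then
        (-1) ^ T.card * (((K.filter (fun k => ∀ q ∈ T, k % q ∈ F q)).card : ℕ) : ℝ) else 0 := by
    unfold G
    rw [Finset.sum_comm]
    apply Finset.sum_congr rfl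
    intro T _
    by_cases hT : T.card ≤ 2 * t
    · simp only [if_pos hT]
      rw [Finset.card_filter]
      push_cast
      rw [Finset.mul_sum]
      apply Finset.sum_congr rfl
      intro k _
      rw [Finset.prod_neg]
      congr 1
      by_cases hk : ∀ q ∈ T, k % q ∈ F q
      · rw [if_pos hk]
        apply Finset.prod_eq_one
        intro q hq
        rw [hι]
        simp only
        rw [if_pos (hk q hq)]
      · rw [if_neg hk]
        push Not at hk
        obtain ⟨q, hq, hkq⟩ := hk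
        apply Finset.prod_eq_zero hq
        rw [hι]
        simp only
        rw [if_neg hkq]
    · simp only [if_neg hT, Finset.sum_const_zero]
  have s4 : ∀ T ∈ P.powerset, (-1 : ℝ) ^ T.card * (((K.filter (fun k => ∀ q ∈ T, k % q ∈ F q)).card : ℕ) : ℝ) ≤
      x * (∏ q ∈ D, h q) * ∏ q ∈ T, (- h q) + (∏ q ∈ D, ((F q).card : ℝ)) * ∏ q ∈ T, ((F q).card : ℝ) := by
    intro T hT
    have hTP := Finset.mem_powerset.1 hT
    have hDT : Disjoint D T := Finset.disjoint_of_subset_right hTP hd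
    have c := cnt x F (D ∪ T)
      (fun q hq => by
        rcases Finset.mem_union.1 hq with h' | h'
        · exact hD q h'
        · exact hP q (hTP h'))
      (fun q hq => by
        rcases Finset.mem_union.1 hq with h' | h'
        · exact hFD q h'
        · exact hFP q (hTP h')) 1 0 one_pos
      (fun q _ => Nat.coprime_one_left q)
    have ef : (Finset.Ioc 0 x).filter (fun k => k ≡ 0 [MOD 1] ∧ ∀ q ∈ D ∪ T, k % q ∈ F q) =
        K.filter (fun k => ∀ q ∈ T, k % q ∈ F q) := by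
      rw [hK, Finset.filter_filter]
      apply Finset.filter_congr
      intro k _
      constructor
      · rintro ⟨_, h'⟩
        exact ⟨fun q hq => h' q (Finset.mem_union_left _ hq), fun q hq => h' q (Finset.mem_union_right _ hq)⟩
      · rintro ⟨h', h''⟩
        refine ⟨Nat.modEq_one, fun q hq => ?_⟩
        rcases Finset.mem_union.1 hq with h3 | h3
        · exact h' q h3
        · exact h'' q h3
    rw [ef, Finset.prod_union hDT, Finset.prod_union hDT] at c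
    rw [Finset.prod_neg]
    simp only [Nat.cast_one, div_one] at c
    rw [abs_le] at c
    have hsg : ((-1 : ℝ) ^ T.card = 1) ∨ ((-1 : ℝ) ^ T.card = -1) := neg_one_pow_eq_or ℝ T.card
    have hhD : ∏ q ∈ D, h q = ∏ q ∈ D, (((F q).card : ℝ) / q) := rfl
    have hhT : ∏ q ∈ T, h q = ∏ q ∈ T, (((F q).card : ℝ) / q) := rfl
    rw [hhD, hhT]
    rcases hsg with e | e
    · rw [e]
      linarith [c.2]
    · rw [e]
      linarith [c.1]
  have s5 : (∑ T ∈ P.powerset, if T.card ≤ 2 * t then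
        (-1) ^ T.card * (((K.filter (fun k => ∀ q ∈ T, k % q ∈ F q)).card : ℕ) : ℝ) else 0) ≤
      x * (∏ q ∈ D, h q) * G P (2 * t) (fun q => - h q) +
        (∏ q ∈ D, ((F q).card : ℝ)) * G P (2 * t) (fun q => ((F q).card : ℝ)) := by
    unfold G
    rw [Finset.mul_sum, Finset.mul_sum, ← Finset.sum_add_distrib]
    apply Finset.sum_le_sum
    intro T hT
    by_cases hc : T.card ≤ 2 * t
    · simp only [if_pos hc]
      exact s4 T hT
    · simp only [if_neg hc]
      norm_num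
  have s6 := (bonf P h h0 h1 (2 * t)).2
  have s7 : ∏ q ∈ P, (1 - h q) ≤ Real.exp (-∑ q ∈ P, h q) := by
    rw [← Finset.sum_neg_distrib, Real.exp_sum]
    apply Finset.prod_le_prod
    · intro q hq
      linarith [h1 q hq]
    · intro q _
      have := Real.add_one_le_exp (-h q)
      linarith
  have s8 := G_le P (fun q => ((F q).card : ℝ)) (fun q _ => Nat.cast_nonneg _) (2 * t)
  rw [pow_mul] at s6
  norm_num at s6
  have hx : (0 : ℝ) ≤ x * ∏ q ∈ D, h q := by
    refine mul_nonneg (Nat.cast_nonneg x) (Finset.prod_nonneg fun q _ => ?_)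
    rw [hh]
    positivity
  have hx' : (0 : ℝ) ≤ ∏ q ∈ D, ((F q).card : ℝ) := Finset.prod_nonneg fun q _ => Nat.cast_nonneg _
  calc ((K.filter (fun k => ∀ q ∈ P, k % q ∉ F q)).card : ℝ)
      = ∑ k ∈ K, ∏ q ∈ P, (1 - ι k q) := s1
    _ ≤ ∑ k ∈ K, G P (2 * t) (fun q => - ι k q) := Finset.sum_le_sum fun k _ => s2 k
    _ ≤ x * (∏ q ∈ D, h q) * G P (2 * t) (fun q => - h q) +
        (∏ q ∈ D, ((F q).card : ℝ)) * G P (2 * t) (fun q => ((F q).card : ℝ)) := by
        rw [s3]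
        exact s5
    _ ≤ x * (∏ q ∈ D, h q) * (Real.exp (-∑ q ∈ P, h q) + (∑ q ∈ P, h q) ^ (2 * t + 1) / (2 * t + 1).factorial) +
      (∏ q ∈ D, ((F q).card : ℝ)) * (1 + ∑ q ∈ P, ((F q).card : ℝ)) ^ (2 * t) := by
        refine add_le_add (mul_le_mul_of_nonneg_left ?_ hx) (mul_le_mul_of_nonneg_left s8 hx')
        linarith

/-- truncated sums of products -/
lemma sumD (P : Finset ℕ) (h : ℕ → ℝ) (h0 : ∀ q ∈ P, 0 ≤ h q) (J : ℕ) :
    ∑ D ∈ P.powerset.filter (fun D => D.card ≤ J), ∏ q ∈ D, h q ≤ 2 ^ J * Real.exp ((∑ q ∈ P, h q) / 2) := by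
  have a1 : ∀ D ∈ P.powerset.filter (fun D => D.card ≤ J), ∏ q ∈ D, h q ≤ 2 ^ J * ∏ q ∈ D, (h q / 2) := by
    intro D hD
    rw [Finset.mem_filter, Finset.mem_powerset] at hD
    have hpos : 0 ≤ ∏ q ∈ D, (h q / 2) := Finset.prod_nonneg fun q hq => by
      have := h0 q (hD.1 hq)
      positivity
    have e : ∏ q ∈ D, h q = 2 ^ D.card * ∏ q ∈ D, (h q / 2) := by
      rw [← Finset.prod_const, ← Finset.prod_mul_distrib]
      apply Finset.prod_congr rfl
      intro q _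
      ring
    rw [e]
    exact mul_le_mul_of_nonneg_right (pow_le_pow_right₀ (by norm_num) hD.2) hpos
  have a2 : ∑ D ∈ P.powerset.filter (fun D => D.card ≤ J), ∏ q ∈ D, (h q / 2) ≤
      ∑ D ∈ P.powerset, ∏ q ∈ D, (h q / 2) := by
    apply Finset.sum_le_sum_of_subset_of_nonneg (Finset.filter_subset _ _)
    intro D hD _
    exact Finset.prod_nonneg fun q hq => by
      have := h0 q (Finset.mem_powerset.1 hD hq)
      positivity
  have a3 : ∑ D ∈ P.powerset, ∏ q ∈ D, (h q / 2) ≤ Real.exp ((∑ q ∈ P, h q) / 2) := by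
    rw [← Finset.prod_one_add, Finset.sum_div, Real.exp_sum]
    apply Finset.prod_le_prod
    · intro q hq
      have := h0 q hq
      positivity
    · intro q _
      have := Real.add_one_le_exp (h q / 2)
      linarith
  calc ∑ D ∈ P.powerset.filter (fun D => D.card ≤ J), ∏ q ∈ D, h q ≤
      ∑ D ∈ P.powerset.filter (fun D => D.card ≤ J), 2 ^ J * ∏ q ∈ D, (h q / 2) := Finset.sum_le_sum a1
    _ = 2 ^ J * ∑ D ∈ P.powerset.filter (fun D => D.card ≤ J), ∏ q ∈ D, (h q / 2) := by rw [Finset.mul_sum]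
    _ ≤ 2 ^ J * Real.exp ((∑ q ∈ P, h q) / 2) :=
        mul_le_mul_of_nonneg_left (a2.trans a3) (by positivity)

theorem r2b_34 : R2b := by
  classical
  intro P F x t J δ hδ hyp
  have hIcc : Finset.Icc 1 x = Finset.Ioc 0 x := by
    ext k
    simp only [Finset.mem_Icc, Finset.mem_Ioc]
    omega
  rw [hIcc]
  have h0 : ∀ q ∈ P, 0 ≤ ((F q).card : ℝ) / q := fun q _ => by positivity
  have hhδ : ∀ q ∈ P, ((F q).card : ℝ) / q ≤ δ := by
    intro q hq
    have hq0 : (0 : ℝ) < q := by exact_mod_cast (hyp q hq).1.pos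
    rw [div_le_iff₀ hq0]
    exact (hyp q hq).2.2
  set E : ℝ := ∑ q ∈ P, ((F q).card : ℝ) / q with hE
  set S : ℝ := ∑ q ∈ P, ((F q).card : ℝ) with hS
  have hE0 : 0 ≤ E := Finset.sum_nonneg h0
  have hS0 : 0 ≤ S := Finset.sum_nonneg fun q _ => Nat.cast_nonneg _
  set ε : ℝ := E ^ (2 * t + 1) / (2 * t + 1).factorial with hε
  have hε0 : 0 ≤ ε := div_nonneg (pow_nonneg hE0 _) (Nat.cast_nonneg _)
  set DD := P.powerset.filter (fun D => D.card ≤ J) with hDD
  have hset : (Finset.Ioc 0 x).filter (fun k => (P.filter (fun q => k % q ∈ F q)).card ≤ J) =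
      DD.biUnion (fun D => (Finset.Ioc 0 x).filter
        (fun k => (∀ q ∈ D, k % q ∈ F q) ∧ ∀ q ∈ P \ D, k % q ∉ F q)) := by
    ext k
    simp only [Finset.mem_filter, Finset.mem_biUnion, hDD, Finset.mem_powerset]
    constructor
    · rintro ⟨hk, hc⟩
      refine ⟨P.filter (fun q => k % q ∈ F q), ⟨Finset.filter_subset _ _, hc⟩, hk, ?_, ?_⟩
      · intro q hq
        exact (Finset.mem_filter.1 hq).2
      · intro q hq
        rw [Finset.mem_sdiff, Finset.mem_filter] at hq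
        exact fun h => hq.2 ⟨hq.1, h⟩
    · rintro ⟨D, ⟨hDP, hc⟩, hk, h1, h2⟩
      refine ⟨hk, ?_⟩
      have : P.filter (fun q => k % q ∈ F q) ⊆ D := by
        intro q hq
        rw [Finset.mem_filter] at hq
        by_contra hqD
        exact h2 q (Finset.mem_sdiff.2 ⟨hq.1, hqD⟩) hq.2
      exact (Finset.card_le_card this).trans hc
  have c1 : (((Finset.Ioc 0 x).filter (fun k => (P.filter (fun q => k % q ∈ F q)).card ≤ J)).card : ℝ) ≤
      ∑ D ∈ DD, (((Finset.Ioc 0 x).filter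
        (fun k => (∀ q ∈ D, k % q ∈ F q) ∧ ∀ q ∈ P \ D, k % q ∉ F q)).card : ℝ) := by
    rw [hset]
    exact_mod_cast Finset.card_biUnion_le
  have c2 : ∀ D ∈ DD, (((Finset.Ioc 0 x).filter
        (fun k => (∀ q ∈ D, k % q ∈ F q) ∧ ∀ q ∈ P \ D, k % q ∉ F q)).card : ℝ) ≤
      x * (Real.exp (-E + J * δ) + ε) * (∏ q ∈ D, ((F q).card : ℝ) / q) +
        (∏ q ∈ D, ((F q).card : ℝ)) * (1 + S) ^ (2 * t) := by
    intro D hD
    rw [hDD, Finset.mem_filter, Finset.mem_powerset] at hD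
    obtain ⟨hDP, hc⟩ := hD
    have s := sieveD (P \ D) D Finset.disjoint_sdiff F
      (fun q hq => (hyp q (Finset.mem_sdiff.1 hq).1).1) (fun q hq => (hyp q (hDP hq)).1)
      (fun q hq => (hyp q (Finset.mem_sdiff.1 hq).1).2.1) (fun q hq => (hyp q (hDP hq)).2.1) x t
    have e1 : ∑ q ∈ P \ D, ((F q).card : ℝ) / q = E - ∑ q ∈ D, ((F q).card : ℝ) / q := by
      rw [hE, ← Finset.sum_sdiff hDP]
      ring
    have e2 : ∑ q ∈ D, ((F q).card : ℝ) / q ≤ J * δ := by
      calc ∑ q ∈ D, ((F q).card : ℝ) / q ≤ ∑ _q ∈ D, δ := Finset.sum_le_sum fun q hq => hhδ q (hDP hq)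
        _ = D.card * δ := by rw [Finset.sum_const, nsmul_eq_mul]
        _ ≤ J * δ := mul_le_mul_of_nonneg_right (by exact_mod_cast hc) hδ
    have e3 : 0 ≤ ∑ q ∈ D, ((F q).card : ℝ) / q := Finset.sum_nonneg fun q hq => h0 q (hDP hq)
    have e4 : 0 ≤ ∑ q ∈ P \ D, ((F q).card : ℝ) / q :=
      Finset.sum_nonneg fun q hq => h0 q (Finset.mem_sdiff.1 hq).1
    have e5 : Real.exp (-∑ q ∈ P \ D, ((F q).card : ℝ) / q) ≤ Real.exp (-E + J * δ) := by
      apply Real.exp_le_exp.2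
      rw [e1]
      linarith
    have e6 : (∑ q ∈ P \ D, ((F q).card : ℝ) / q) ^ (2 * t + 1) / ((2 * t + 1).factorial : ℝ) ≤ ε := by
      rw [hε]
      refine div_le_div_of_nonneg_right (pow_le_pow_left₀ e4 ?_ _) (Nat.cast_nonneg _)
      rw [e1]
      linarith
    have e7 : ∑ q ∈ P \ D, ((F q).card : ℝ) ≤ S := by
      rw [hS]
      apply Finset.sum_le_sum_of_subset_of_nonneg Finset.sdiff_subset
      intro q _ _
      exact Nat.cast_nonneg _
    have e8 : 0 ≤ ∑ q ∈ P \ D, ((F q).card : ℝ) := Finset.sum_nonneg fun q _ => Nat.cast_nonneg _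
    have p1 : 0 ≤ ∏ q ∈ D, ((F q).card : ℝ) / q := Finset.prod_nonneg fun q hq => h0 q (hDP hq)
    have p2 : 0 ≤ ∏ q ∈ D, ((F q).card : ℝ) := Finset.prod_nonneg fun q _ => Nat.cast_nonneg _
    refine s.trans ?_
    have f1 : (x : ℝ) * (∏ q ∈ D, ((F q).card : ℝ) / q) * (Real.exp (-∑ q ∈ P \ D, ((F q).card : ℝ) / q) +
        (∑ q ∈ P \ D, ((F q).card : ℝ) / q) ^ (2 * t + 1) / (2 * t + 1).factorial) ≤
        x * (∏ q ∈ D, ((F q).card : ℝ) / q) * (Real.exp (-E + J * δ) + ε) :=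
      mul_le_mul_of_nonneg_left (add_le_add e5 e6) (mul_nonneg (Nat.cast_nonneg x) p1)
    have f2 : (∏ q ∈ D, ((F q).card : ℝ)) * (1 + ∑ q ∈ P \ D, ((F q).card : ℝ)) ^ (2 * t) ≤
        (∏ q ∈ D, ((F q).card : ℝ)) * (1 + S) ^ (2 * t) :=
      mul_le_mul_of_nonneg_left (pow_le_pow_left₀ (by linarith) (by linarith) _) p2
    have f3 : (x : ℝ) * (∏ q ∈ D, ((F q).card : ℝ) / q) * (Real.exp (-E + J * δ) + ε) =
        x * (Real.exp (-E + J * δ) + ε) * (∏ q ∈ D, ((F q).card : ℝ) / q) := by ring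
    rw [← f3]
    exact add_le_add f1 f2
  have c3 := sumD P (fun q => ((F q).card : ℝ) / q) h0 J
  have c4 : ∑ D ∈ DD, ∏ q ∈ D, ((F q).card : ℝ) ≤ (1 + S) ^ J := by
    have := G_le P (fun q => ((F q).card : ℝ)) (fun q _ => Nat.cast_nonneg _) J
    unfold G at this
    rw [← Finset.sum_filter] at this
    exact this
  have hX : 0 ≤ (x : ℝ) * (Real.exp (-E + J * δ) + ε) :=
    mul_nonneg (Nat.cast_nonneg x) (add_nonneg (Real.exp_pos _).le hε0)
  have hpow : (1 : ℝ) ≤ (1 + S) ^ J := one_le_pow₀ (by linarith)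
  have hpow2 : (0 : ℝ) ≤ (1 + S) ^ (2 * t) := pow_nonneg (by linarith) _
  calc (((Finset.Ioc 0 x).filter (fun k => (P.filter (fun q => k % q ∈ F q)).card ≤ J)).card : ℝ) ≤
      ∑ D ∈ DD, (((Finset.Ioc 0 x).filter
        (fun k => (∀ q ∈ D, k % q ∈ F q) ∧ ∀ q ∈ P \ D, k % q ∉ F q)).card : ℝ) := c1
    _ ≤ ∑ D ∈ DD, (x * (Real.exp (-E + J * δ) + ε) * (∏ q ∈ D, ((F q).card : ℝ) / q) +
        (∏ q ∈ D, ((F q).card : ℝ)) * (1 + S) ^ (2 * t)) := Finset.sum_le_sum c2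
    _ = x * (Real.exp (-E + J * δ) + ε) * (∑ D ∈ DD, ∏ q ∈ D, ((F q).card : ℝ) / q) +
        (∑ D ∈ DD, ∏ q ∈ D, ((F q).card : ℝ)) * (1 + S) ^ (2 * t) := by
        rw [Finset.sum_add_distrib, Finset.mul_sum, Finset.sum_mul]
    _ ≤ x * (Real.exp (-E + J * δ) + ε) * (2 ^ J * Real.exp (E / 2)) + (1 + S) ^ J * (1 + S) ^ (2 * t) :=
        add_le_add (mul_le_mul_of_nonneg_left c3 hX) (mul_le_mul_of_nonneg_right c4 hpow2)
    _ ≤ x * ((Real.exp (-E + J * δ) + ε) * 2 ^ J * Real.exp (E / 2)) +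
      (1 + S) ^ J * (1 + ε + (1 + S) ^ (2 * t)) := by
        have h5 : 0 ≤ (1 + S) ^ J * (1 + ε) := mul_nonneg (by linarith) (by linarith)
        have h6 : (1 + S) ^ J * (1 + ε + (1 + S) ^ (2 * t)) = (1 + S) ^ J * (1 + ε) + (1 + S) ^ J * (1 + S) ^ (2 * t) := by
          ring
        have h7 : (x : ℝ) * (Real.exp (-E + J * δ) + ε) * (2 ^ J * Real.exp (E / 2)) =
            x * ((Real.exp (-E + J * δ) + ε) * 2 ^ J * Real.exp (E / 2)) := by ring
        rw [h6, h7]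
        linarith

end Pool.Agent.SPM.B34
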