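import Pool.Agent.SPM.Stmts

/-!
# MP_7a4c99_nt, row R3 (helper46): prime divisors of `m (k + m - 3) + 1` give sum = product multisets
-/

set_option autoImplicit false

namespace Pool.Agent.SPM

namespace Sol46

/-- `∏ u ≥ 1 + ∑ (a - 1)` -/
lemma sum_le_prod (u : Multiset ℕ) (hu : ∀ a ∈ u, 0 < a) : 0 < u.prod ∧ u.sum + 1 ≤ u.prod + u.card := by
  induction u using Multiset.induction with
  | empty => simp
  | cons a u ih =>
    have ha : 0 < a := hu a (Multiset.mem_cons_self a u)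
    obtain ⟨h1, h2⟩ := ih fun b hb => hu b (Multiset.mem_cons_of_mem hb)
    rw [Multiset.prod_cons, Multiset.sum_cons, Multiset.card_cons]
    refine ⟨Nat.mul_pos ha h1, ?_⟩
    obtain ⟨a', rfl⟩ : ∃ a', a = a' + 1 := ⟨a - 1, by omega⟩
    nlinarith [Nat.mul_le_mul_left a' h1]

/-- the entries of a sum = product multiset of size `k` are at most `k` -/
lemma entries_le {k : ℕ} (hk : 2 ≤ k) {s : Multiset ℕ} (hs : IsSP k s) {a : ℕ} (ha : a ∈ s) : a ≤ k := by
  obtain ⟨hc, hpos, hps⟩ := hs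
  obtain ⟨t, rfl⟩ := Multiset.exists_cons_of_mem ha
  rw [Multiset.card_cons] at hc
  have ha0 : 0 < a := hpos a (Multiset.mem_cons_self a t)
  have ht : ∀ b ∈ t, 0 < b := fun b hb => hpos b (Multiset.mem_cons_of_mem hb)
  rw [Multiset.prod_cons, Multiset.sum_cons] at hps
  by_cases hb : ∃ b ∈ t, 2 ≤ b
  · obtain ⟨b, hb, hb2⟩ := hb
    obtain ⟨u, rfl⟩ := Multiset.exists_cons_of_mem hb
    rw [Multiset.card_cons] at hc
    rw [Multiset.prod_cons, Multiset.sum_cons] at hps
    obtain ⟨h1, h2⟩ := sum_le_prod u fun c hc' => ht c (Multiset.mem_cons_of_mem hc')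
    generalize u.prod = p at *
    generalize u.sum = S at *
    generalize Multiset.card u = c at *
    obtain ⟨α, rfl⟩ : ∃ α, a = α + 1 := ⟨a - 1, by omega⟩
    obtain ⟨β, rfl⟩ : ∃ β, b = β + 2 := ⟨b - 2, by omega⟩
    obtain ⟨γ, rfl⟩ : ∃ γ, p = γ + 1 := ⟨p - 1, by omega⟩
    nlinarith [Nat.zero_le (α * β), Nat.zero_le (γ * (1 + β + 2 * α + α * β))]
  · exfalso
    push Not at hb
    have h1 : ∀ b ∈ t, b = 1 := fun b hbt => by
      have := ht b hbt
      have := hb b hbt
      omega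
    have h2 : t = Multiset.replicate t.card 1 := Multiset.eq_replicate_card.2 h1
    rw [h2, Multiset.prod_replicate, Multiset.sum_replicate, one_pow] at hps
    simp at hps
    subst hps
    simp at hc
    omega

lemma fin {k : ℕ} (hk : 2 ≤ k) : {s : Multiset ℕ | IsSP k s}.Finite := by
  apply (Set.finite_Iic (k • Multiset.range (k + 1))).subset
  intro s hs
  rw [Set.mem_Iic, Multiset.le_iff_count]
  intro a
  by_cases ha : a ∈ s
  · have h := entries_le hk hs ha
    rw [Multiset.count_nsmul, Multiset.count_eq_one_of_mem (Multiset.nodup_range _)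
      (Multiset.mem_range.2 (by omega)), mul_one]
    exact (Multiset.count_le_card a s).trans hs.1.le
  · rw [Multiset.count_eq_zero.2 ha]
    exact Nat.zero_le _

/-- a prime divisor gives the two large entries -/
lemma exists_ab {M m k q : ℕ} (hk : 3 ≤ k) (hm : 2 ≤ m) (hmM : m ≤ M) (hq : M ^ 2 < q) (hqk : q ^ 2 ≤ k)
    (h1 : m ∣ q + 1) (h2 : q ∣ m * (k + m - 3) + 1) :
    ∃ a b : ℕ, M < a ∧ M < b ∧ m * (a * b) = m + (a + (b + (k - 3))) := by
  obtain ⟨a, ha⟩ := h1
  obtain ⟨e, he⟩ := h2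
  obtain ⟨j, rfl⟩ : ∃ j, k = j + 3 := ⟨k - 3, by omega⟩
  have e1 : j + 3 + m - 3 = j + m := by omega
  rw [e1] at he
  have hm0 : 0 < m := by omega
  have h3 : m ∣ e + 1 := by
    have h4 : m ∣ q * e + e := ⟨a * e, by rw [← mul_assoc, ← ha]; ring⟩
    rw [← he] at h4
    have h5 : m * (j + m) + 1 + e = m * (j + m) + (e + 1) := by ring
    rw [h5] at h4
    exact (Nat.dvd_add_right (Dvd.intro _ rfl)).1 h4
  obtain ⟨b, hb⟩ := h3
  have hMm : m * M ≤ M ^ 2 := by rw [pow_two]; exact Nat.mul_le_mul_right M hmM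
  have hqe : q ≤ e := by
    by_contra hcon
    push Not at hcon
    have h6 : q * e < q * q := Nat.mul_lt_mul_of_pos_left hcon (by omega)
    rw [← he] at h6
    nlinarith
  refine ⟨a, b, ?_, ?_, ?_⟩
  · have : m * M < m * a := by omega
    exact Nat.lt_of_mul_lt_mul_left this
  · have : m * M < m * b := by omega
    exact Nat.lt_of_mul_lt_mul_left this
  · have h7 : m * (m * (a * b)) = m * (m + (a + (b + j))) := by
      have h8 : (m * a) * (m * b) = (q + 1) * (e + 1) := by rw [ha, hb]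
      have h9 : (q + 1) * (e + 1) = m * (j + m) + m * a + m * b := by
        rw [← ha, ← hb]
        linear_combination -he
      linear_combination h8 + h9
    have h10 := Nat.eq_of_mul_eq_mul_left hm0 h7
    rw [h10]
    simp

lemma exists_sol {M m k : ℕ} (hk : 3 ≤ k) (hm : 2 ≤ m) {a b : ℕ} (ha : M < a) (hb : M < b)
    (h : m * (a * b) = m + (a + (b + (k - 3)))) :
    ∃ s : Multiset ℕ, IsSP k s ∧ m ∈ s ∧ ∀ x ∈ s, x = 1 ∨ x = m ∨ M < x := by
  refine ⟨m ::ₘ a ::ₘ b ::ₘ Multiset.replicate (k - 3) 1, ⟨?_, ?_, ?_⟩, Multiset.mem_cons_self _ _, ?_⟩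
  · simp only [Multiset.card_cons, Multiset.card_replicate]
    omega
  · intro x hx
    simp only [Multiset.mem_cons, Multiset.mem_replicate] at hx
    omega
  · simp only [Multiset.prod_cons, Multiset.sum_cons, Multiset.prod_replicate, Multiset.sum_replicate, one_pow,
      mul_one, smul_eq_mul]
    exact h
  · intro x hx
    simp only [Multiset.mem_cons, Multiset.mem_replicate] at hx
    rcases hx with rfl | rfl | rfl | ⟨-, rfl⟩
    · right; left; rfl
    · right; right; exact ha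
    · right; right; exact hb
    · left; rfl

end Sol46

open Sol46 in
/-- **R3.** -/
theorem sol46 : R3 := by
  classical
  intro M C k hk hN
  set Bad : ℕ → Prop := fun m => ∃ q : ℕ, q.Prime ∧ M ^ 2 < q ∧ q ^ 2 ≤ k ∧ m ∣ q + 1 ∧ q ∣ m * (k + m - 3) + 1
    with hBad
  set G := (Finset.Icc 2 M).filter Bad with hG
  set T := (Finset.Icc 2 M).filter (fun m => ¬ Bad m) with hT
  have hcard : G.card + T.card = M + 1 - 2 := by
    rw [hG, hT, Finset.card_filter_add_card_filter_not, Nat.card_Icc]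
  have hG' : ∀ m ∈ G, ∃ s : Multiset ℕ, IsSP k s ∧ m ∈ s ∧ ∀ x ∈ s, x = 1 ∨ x = m ∨ M < x := by
    intro m hm
    rw [hG, Finset.mem_filter, Finset.mem_Icc] at hm
    obtain ⟨⟨h2, hM⟩, q, -, hq1, hq2, hq3, hq4⟩ := hm
    obtain ⟨a, b, ha, hb, hab⟩ := exists_ab hk h2 hM hq1 hq2 hq3 hq4
    exact exists_sol hk h2 ha hb hab
  choose! f hf using hG'
  have hle : G.card ≤ N k := by
    rw [← Set.ncard_coe_finset]
    apply Set.ncard_le_ncard_of_injOn f _ _ (fin (by omega))
    · intro m hm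
      exact (hf m hm).1
    · intro m hm m' hm' he
      have h1 := (hf m hm).2.1
      rw [he] at h1
      have h2 := (hf m' hm').2.2 m h1
      have h3 : m ∈ G := hm
      rw [hG, Finset.mem_filter, Finset.mem_Icc] at h3
      omega
  refine ⟨T, Finset.filter_subset _ _, by omega, ?_⟩
  intro m hm q h1 h2 h3 h4 h5
  rw [hT, Finset.mem_filter] at hm
  exact hm.2 ⟨q, h1, h2, h3, h4, h5⟩

end Pool.Agent.SPM
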