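import Pool.Agent.Helper64.PNT.Primes

/-! Lower bound for the sum of the reciprocals of the primes in a reduced residue class (helper92). -/

set_option autoImplicit false

namespace Pool.Agent.SPM

open Filter Topology Pool.Agent.Helper64.PNT

/-- the primes `p ≤ n`, `p ≡ a` -/
def prAP {m : ℕ} (a : ZMod m) (n : ℕ) : Finset ℕ :=
  (Finset.Icc 1 n).filter (fun p : ℕ => p.Prime ∧ (p : ZMod m) = a)

theorem mem_prAP {m : ℕ} {a : ZMod m} {n p : ℕ} : p ∈ prAP a n ↔ p.Prime ∧ (p : ZMod m) = a ∧ p ≤ n := by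
  unfold prAP
  rw [Finset.mem_filter, Finset.mem_Icc]
  constructor
  · rintro ⟨⟨-, h1⟩, h2, h3⟩
    exact ⟨h2, h3, h1⟩
  · rintro ⟨h1, h2, h3⟩
    exact ⟨⟨h1.one_le, h3⟩, h1, h2⟩

theorem prAP_mono {m : ℕ} {a : ZMod m} {n k : ℕ} (h : n ≤ k) : prAP a n ⊆ prAP a k := by
  intro p hp
  rw [mem_prAP] at hp ⊢
  exact ⟨hp.1, hp.2.1, hp.2.2.trans h⟩

theorem thetaAP_nat {m : ℕ} (a : ZMod m) (n : ℕ) : thetaAP a (n : ℝ) = ∑ p ∈ prAP a n, Real.log p := by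
  unfold thetaAP prAP
  rw [Nat.floor_natCast]

/-- dyadic blocks -/
theorem blockAP {m : ℕ} [NeZero m] {a : ZMod m} (ha : IsUnit a) : ∃ j₀ : ℕ, ∀ j : ℕ, j₀ ≤ j →
    (2 : ℝ) ^ j / (2 * m.totient) ≤ ∑ p ∈ prAP a (2 ^ (j + 1)) \ prAP a (2 ^ j), Real.log p := by
  have hφ : (0 : ℝ) < (m.totient : ℝ) := by
    exact_mod_cast Nat.totient_pos.2 (Nat.pos_of_ne_zero (NeZero.ne m))
  have hφ' : (0 : ℝ) < (m.totient : ℝ)⁻¹ := inv_pos.2 hφ
  have h1 := thetaAP_tendsto ha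
  have h2 : ∀ᶠ x : ℝ in atTop, |thetaAP a x / x - (m.totient : ℝ)⁻¹| < (m.totient : ℝ)⁻¹ / 8 := by
    have := (Metric.tendsto_nhds.1 h1) ((m.totient : ℝ)⁻¹ / 8) (by positivity)
    filter_upwards [this] with x hx
    rwa [Real.dist_eq] at hx
  obtain ⟨x₀, hx₀⟩ := eventually_atTop.1 h2
  obtain ⟨j₀, hj₀⟩ := pow_unbounded_of_one_lt x₀ (by norm_num : (1 : ℝ) < 2)
  refine ⟨j₀, fun j hj => ?_⟩
  have hj1 : x₀ ≤ (2 : ℝ) ^ j := hj₀.le.trans (pow_le_pow_right₀ (by norm_num) hj)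
  have hj2 : x₀ ≤ (2 : ℝ) ^ (j + 1) := hj1.trans (pow_le_pow_right₀ (by norm_num) (by omega))
  have e1 := abs_lt.1 (hx₀ _ hj1)
  have e2 := abs_lt.1 (hx₀ _ hj2)
  have hp1 : (0 : ℝ) < 2 ^ j := by positivity
  have hp2 : (0 : ℝ) < 2 ^ (j + 1) := by positivity
  have e3 : thetaAP a (2 ^ j : ℝ) ≤ (2 : ℝ) ^ j * ((m.totient : ℝ)⁻¹ * (9 / 8)) := by
    have := e1.2
    have h5 : thetaAP a (2 ^ j : ℝ) / 2 ^ j ≤ (m.totient : ℝ)⁻¹ * (9 / 8) := by linarith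
    rw [div_le_iff₀ hp1] at h5
    linarith
  have e4 : (2 : ℝ) ^ (j + 1) * ((m.totient : ℝ)⁻¹ * (7 / 8)) ≤ thetaAP a (2 ^ (j + 1) : ℝ) := by
    have := e2.1
    have h5 : (m.totient : ℝ)⁻¹ * (7 / 8) ≤ thetaAP a (2 ^ (j + 1) : ℝ) / 2 ^ (j + 1) := by linarith
    rw [le_div_iff₀ hp2] at h5
    linarith
  have e5 : ∑ p ∈ prAP a (2 ^ (j + 1)) \ prAP a (2 ^ j), Real.log p =
      thetaAP a (2 ^ (j + 1) : ℝ) - thetaAP a (2 ^ j : ℝ) := by
    have h6 := Finset.sum_sdiff (f := fun p : ℕ => Real.log p)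
      (prAP_mono (a := a) (Nat.pow_le_pow_right (by norm_num : 0 < 2) (Nat.le_succ j)))
    have h7 := thetaAP_nat a (2 ^ j)
    have h8 := thetaAP_nat a (2 ^ (j + 1))
    push_cast at h7 h8
    rw [h7, h8]
    simp only [Nat.succ_eq_add_one] at h6
    linarith
  rw [e5]
  have h9 : (2 : ℝ) ^ j / (2 * m.totient) = (2 : ℝ) ^ j * ((m.totient : ℝ)⁻¹ * (1 / 2)) := by
    field_simp
  have h10 : (2 : ℝ) ^ (j + 1) = 2 * 2 ^ j := by rw [pow_succ]; ring
  rw [h10] at e4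
  rw [h9]
  have h11 : 0 < (2 : ℝ) ^ j * (m.totient : ℝ)⁻¹ := by positivity
  rw [h10]
  nlinarith

/-- Row R1: sums of reciprocals of primes in a reduced residue class. -/
theorem recAP (m : ℕ) [NeZero m] {a : ZMod m} (ha : IsUnit a) : ∃ C : ℝ, ∀ z : ℝ, 3 ≤ z →
    (1 / (4 * (m.totient : ℝ))) * Real.log (Real.log z) - C ≤
      ∑ p ∈ (Finset.Icc 1 ⌊z⌋₊).filter (fun p : ℕ => p.Prime ∧ (p : ZMod m) = a), (1 : ℝ) / p := by
  have hφ : (0 : ℝ) < (m.totient : ℝ) := by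
    exact_mod_cast Nat.totient_pos.2 (Nat.pos_of_ne_zero (NeZero.ne m))
  obtain ⟨j₀, hj₀⟩ := blockAP ha
  have hl2 : 0 < Real.log 2 := Real.log_pos (by norm_num)
  have hl2' : Real.log 2 ≤ 1 := by
    have := Real.log_two_lt_d9
    linarith
  set c : ℝ := 1 / (4 * m.totient * Real.log 2) with hc
  have hc0 : 0 < c := by rw [hc]; positivity
  have hc1 : 1 / (4 * (m.totient : ℝ)) ≤ c := by
    rw [hc]
    apply one_div_le_one_div_of_le (by positivity)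
    have : 4 * (m.totient : ℝ) * Real.log 2 ≤ 4 * m.totient * 1 := by gcongr
    linarith
  -- the dyadic sums
  have hS : ∀ k : ℕ, c * (Real.log ((j₀ + k : ℕ) + 1) - Real.log ((j₀ : ℕ) + 1)) ≤
      ∑ p ∈ prAP a (2 ^ (j₀ + k)), (1 : ℝ) / p := by
    intro k
    induction k with
    | zero =>
      simp only [add_zero, sub_self, mul_zero]
      exact Finset.sum_nonneg fun p _ => by positivity
    | succ k ih =>
      have hj := hj₀ (j₀ + k) (by omega)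
      have hpos : (0 : ℝ) < (2 : ℝ) ^ (j₀ + k + 1) * ((j₀ + k : ℕ) + 1) * Real.log 2 := by positivity
      have h1 : ∑ p ∈ prAP a (2 ^ (j₀ + k + 1)) \ prAP a (2 ^ (j₀ + k)), Real.log p ≤
          ((2 : ℝ) ^ (j₀ + k + 1) * ((j₀ + k : ℕ) + 1) * Real.log 2) *
            ∑ p ∈ prAP a (2 ^ (j₀ + k + 1)) \ prAP a (2 ^ (j₀ + k)), (1 : ℝ) / p := by
        rw [Finset.mul_sum]
        apply Finset.sum_le_sum
        intro p hp
        have hp1 := (mem_prAP.1 (Finset.mem_sdiff.1 hp).1)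
        have hp0 : (0 : ℝ) < p := by exact_mod_cast hp1.1.pos
        have hp2 : (p : ℝ) ≤ 2 ^ (j₀ + k + 1) := by exact_mod_cast hp1.2.2
        have h2 : Real.log p ≤ ((j₀ + k : ℕ) + 1) * Real.log 2 := by
          have h3 := Real.log_le_log hp0 hp2
          rw [Real.log_pow] at h3
          push_cast at h3 ⊢
          linarith
        have h4 : 1 ≤ (2 : ℝ) ^ (j₀ + k + 1) * (1 / p) := by
          rw [mul_one_div, le_div_iff₀ hp0]
          linarith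
        have h5 : 0 ≤ ((j₀ + k : ℕ) + 1) * Real.log 2 := by positivity
        calc Real.log p ≤ ((j₀ + k : ℕ) + 1) * Real.log 2 := h2
          _ = 1 * (((j₀ + k : ℕ) + 1) * Real.log 2) := by ring
          _ ≤ ((2 : ℝ) ^ (j₀ + k + 1) * (1 / p)) * (((j₀ + k : ℕ) + 1) * Real.log 2) := by gcongr
          _ = (2 : ℝ) ^ (j₀ + k + 1) * ((j₀ + k : ℕ) + 1) * Real.log 2 * (1 / p) := by ring
      have h2 := hj.trans h1
      have h3 : c * (1 / ((j₀ + k : ℕ) + 1)) ≤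
          ∑ p ∈ prAP a (2 ^ (j₀ + k + 1)) \ prAP a (2 ^ (j₀ + k)), (1 : ℝ) / p := by
        rw [← mul_le_mul_iff_right₀ hpos]
        refine le_trans (le_of_eq ?_) h2
        rw [hc, pow_succ]
        have : (0 : ℝ) < ((j₀ + k : ℕ) : ℝ) + 1 := by positivity
        field_simp
        ring
      have h4 : Real.log (((j₀ + (k + 1) : ℕ) : ℝ) + 1) - Real.log (((j₀ + k : ℕ) : ℝ) + 1) ≤
          1 / (((j₀ + k : ℕ) : ℝ) + 1) := by
        have hx : (0 : ℝ) < ((j₀ + k : ℕ) : ℝ) + 1 := by positivity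
        have hy : (0 : ℝ) < ((j₀ + (k + 1) : ℕ) : ℝ) + 1 := by positivity
        rw [← Real.log_div hy.ne' hx.ne']
        refine (Real.log_le_sub_one_of_pos (div_pos hy hx)).trans (le_of_eq ?_)
        push_cast
        field_simp
        ring
      have h5 := Finset.sum_sdiff (f := fun p : ℕ => (1 : ℝ) / p)
        (prAP_mono (a := a) (Nat.pow_le_pow_right (by norm_num : 0 < 2) (Nat.le_succ (j₀ + k))))
      simp only [Nat.succ_eq_add_one] at h5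
      have h6 := mul_le_mul_of_nonneg_left h4 hc0.le
      have h7 : j₀ + (k + 1) = j₀ + k + 1 := by ring
      rw [h7, ← h5]
      rw [h7] at h6
      nlinarith
  refine ⟨c * Real.log ((j₀ : ℕ) + 1), fun z hz => ?_⟩
  have hz0 : 0 < z := by linarith
  have hz1 : 1 ≤ Real.log z := by
    rw [Real.le_log_iff_exp_le hz0]
    have := Real.exp_one_lt_d9
    linarith
  have hll : 0 ≤ Real.log (Real.log z) := Real.log_nonneg hz1
  have hn : ⌊z⌋₊ ≠ 0 := by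
    have : 3 ≤ ⌊z⌋₊ := Nat.le_floor (by exact_mod_cast hz)
    omega
  set J := Nat.log 2 ⌊z⌋₊ with hJ
  have hJ1 : 2 ^ J ≤ ⌊z⌋₊ := Nat.pow_log_le_self 2 hn
  have hJ2 : Real.log z ≤ (J : ℝ) + 1 := by
    have h1 : ⌊z⌋₊ < 2 ^ (J + 1) := Nat.lt_pow_succ_log_self (by norm_num) _
    have h2 : z ≤ (2 : ℝ) ^ (J + 1) := by
      have h3 : z < (⌊z⌋₊ : ℝ) + 1 := Nat.lt_floor_add_one z
      have h4 : (⌊z⌋₊ : ℝ) + 1 ≤ (2 : ℝ) ^ (J + 1) := by exact_mod_cast h1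
      linarith
    have h3 := Real.log_le_log hz0 h2
    rw [Real.log_pow] at h3
    have h4 : (((J + 1 : ℕ) : ℝ)) * Real.log 2 ≤ ((J + 1 : ℕ) : ℝ) * 1 := by gcongr
    push_cast at h3 h4
    linarith
  have hJ3 : Real.log (Real.log z) ≤ Real.log ((J : ℝ) + 1) := Real.log_le_log (by linarith) hJ2
  have hcl : (1 / (4 * (m.totient : ℝ))) * Real.log (Real.log z) ≤ c * Real.log ((J : ℝ) + 1) := by
    calc (1 / (4 * (m.totient : ℝ))) * Real.log (Real.log z) ≤ c * Real.log (Real.log z) := by gcongr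
      _ ≤ c * Real.log ((J : ℝ) + 1) := by gcongr
  have hsum : ∑ p ∈ prAP a (2 ^ J), (1 : ℝ) / p ≤
      ∑ p ∈ (Finset.Icc 1 ⌊z⌋₊).filter (fun p : ℕ => p.Prime ∧ (p : ZMod m) = a), (1 : ℝ) / p :=
    Finset.sum_le_sum_of_subset_of_nonneg (prAP_mono hJ1) fun p _ _ => by positivity
  rcases le_total j₀ J with h | h
  · obtain ⟨k, hk⟩ := Nat.exists_eq_add_of_le h
    have h1 := hS k
    rw [← hk] at h1
    have h2 : c * (Real.log ((J : ℝ) + 1) - Real.log ((j₀ : ℝ) + 1)) =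
        c * Real.log ((J : ℝ) + 1) - c * Real.log ((j₀ : ℝ) + 1) := by ring
    rw [h2] at h1
    linarith
  · have h1 : Real.log ((J : ℝ) + 1) ≤ Real.log ((j₀ : ℝ) + 1) := by
      apply Real.log_le_log (by positivity)
      have : (J : ℝ) ≤ j₀ := by exact_mod_cast h
      linarith
    have h2 : c * Real.log ((J : ℝ) + 1) ≤ c * Real.log ((j₀ : ℝ) + 1) := by gcongr
    have h3 : 0 ≤ ∑ p ∈ prAP a (2 ^ J), (1 : ℝ) / p := Finset.sum_nonneg fun p _ => by positivity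
    linarith

end Pool.Agent.SPM
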