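import Pool.Agent.SPM.Stmts
import Pool.Agent.SPM.RecAP92

/-! Assembly for MP_7a4c99_nt, part 1 (helper92): the parameter `M`, the residue classes, the sums `E`. -/

set_option autoImplicit false

namespace Pool.Agent.SPM

open Finset

/-- R1 -/
theorem r1_92 : R1 := by
  intro m hm
  haveI : NeZero m := ⟨by omega⟩
  obtain ⟨C, hC⟩ := recAP m (a := (-1 : ZMod m)) isUnit_one.neg
  refine ⟨C, fun z hz => ?_⟩
  have h1 := hC (z : ℝ) (by exact_mod_cast hz)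
  rw [Nat.floor_natCast] at h1
  have h2 : ∀ q : ℕ, ((q : ZMod m) = -1 ↔ m ∣ q + 1) := by
    intro q
    rw [← ZMod.natCast_eq_zero_iff]
    push_cast
    constructor
    · intro h; rw [h]; ring
    · intro h; linear_combination h
  simp only [h2] at h1
  have h3 : Real.log (Real.log z) / (4 * m.totient) = 1 / (4 * (m.totient : ℝ)) * Real.log (Real.log z) := by ring
  rw [h3]
  exact h1

theorem sum_inv_Icc (n : ℕ) : ∑ m ∈ Icc 1 n, (1 : ℝ) / m = ((harmonic n : ℚ) : ℝ) := by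
  rw [harmonic_eq_sum_Icc]
  push_cast
  simp only [one_div]

/-- the choice of `M` -/
theorem exists_M (K : ℝ) (C : ℕ) : ∃ M : ℕ, 2 ≤ M ∧ ∀ T ⊆ Icc 2 M, M ≤ T.card + C + 1 →
    K ≤ ∑ m ∈ T, 1 / (4 * (m.totient : ℝ)) := by
  obtain ⟨M₀, hM₀⟩ := exists_nat_ge (Real.exp (4 * K + 1 + C))
  refine ⟨M₀ + 2, by omega, fun T hT hc => ?_⟩
  set M := M₀ + 2 with hM
  have h1 : 4 * K + 1 + C ≤ Real.log ((M + 1 : ℕ) : ℝ) := by
    rw [Real.le_log_iff_exp_le (by positivity)]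
    refine hM₀.trans ?_
    exact_mod_cast (show M₀ ≤ M + 1 by omega)
  have h2 : Real.log ((M + 1 : ℕ) : ℝ) ≤ ∑ m ∈ Icc 1 M, (1 : ℝ) / m := by
    rw [sum_inv_Icc]
    exact log_add_one_le_harmonic M
  have h3 : ∑ m ∈ Icc 1 M, (1 : ℝ) / m = 1 + ∑ m ∈ Icc 2 M, (1 : ℝ) / m := by
    have : Icc 1 M = insert 1 (Icc 2 M) := by
      ext k
      rw [mem_insert, mem_Icc, mem_Icc]
      omega
    rw [this, sum_insert (by simp)]
    norm_num
  have h4 : ∑ m ∈ Icc 2 M, (1 : ℝ) / m = ∑ m ∈ Icc 2 M \ T, (1 : ℝ) / m + ∑ m ∈ T, (1 : ℝ) / m :=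
    (sum_sdiff hT).symm
  have h5 : ∑ m ∈ Icc 2 M \ T, (1 : ℝ) / m ≤ C := by
    have h6 : (Icc 2 M \ T).card ≤ C := by
      rw [card_sdiff_of_subset hT, Nat.card_Icc]
      omega
    calc ∑ m ∈ Icc 2 M \ T, (1 : ℝ) / m ≤ ∑ _m ∈ Icc 2 M \ T, (1 : ℝ) := by
          apply sum_le_sum
          intro m hm
          have h7 := (mem_Icc.1 (mem_sdiff.1 hm).1).1
          rw [div_le_one (by positivity)]
          exact_mod_cast (show 1 ≤ m by omega)
      _ = ((Icc 2 M \ T).card : ℝ) := by simp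
      _ ≤ C := by exact_mod_cast h6
  have h6 : (1 / 4) * ∑ m ∈ T, (1 : ℝ) / m ≤ ∑ m ∈ T, 1 / (4 * (m.totient : ℝ)) := by
    rw [mul_sum]
    apply sum_le_sum
    intro m hm
    have h7 := (mem_Icc.1 (hT hm)).1
    have h8 : 0 < m.totient := Nat.totient_pos.2 (by omega)
    have h9 : (m.totient : ℝ) ≤ m := by exact_mod_cast Nat.totient_le m
    have h10 : (0 : ℝ) < m.totient := by exact_mod_cast h8
    rw [div_mul_div_comm, one_mul]
    apply one_div_le_one_div_of_le (by positivity)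
    linarith
  linarith

/-- the forbidden classes modulo `q` -/
def Fq (T : Finset ℕ) (q : ℕ) : Finset ℕ :=
  (T.filter (fun m => m ∣ q + 1)).image fun m : ℕ => ((3 : ZMod q) - (m : ZMod q) - (m : ZMod q)⁻¹).val

theorem Fq_lt {T : Finset ℕ} {q : ℕ} (hq : q.Prime) : ∀ r ∈ Fq T q, r < q := by
  have := Fact.mk hq
  intro r hr
  obtain ⟨m, -, rfl⟩ := mem_image.1 hr
  exact ZMod.val_lt _

theorem cast_ne {M q m : ℕ} (hq : q.Prime) (hM : M ^ 2 < q) (h2 : 2 ≤ m) (hm : m ≤ M) : (m : ZMod q) ≠ 0 := by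
  intro h0
  rw [ZMod.natCast_eq_zero_iff] at h0
  have := Nat.le_of_dvd (by omega) h0
  nlinarith

theorem Fq_card {T : Finset ℕ} {M q : ℕ} (hT : T ⊆ Icc 2 M) (hq : q.Prime) (hM : M ^ 2 < q) :
    (Fq T q).card = (T.filter (fun m => m ∣ q + 1)).card := by
  have := Fact.mk hq
  apply card_image_of_injOn
  intro m hm m' hm' he
  have h1 := mem_Icc.1 (hT (mem_filter.1 hm).1)
  have h1' := mem_Icc.1 (hT (mem_filter.1 hm').1)
  have h2 := cast_ne hq hM h1.1 h1.2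
  have h2' := cast_ne hq hM h1'.1 h1'.2
  have h3 := ZMod.val_injective q he
  have h4 : ((m : ZMod q) - m') * ((m : ZMod q) * m' - 1) = 0 := by
    have h5 : (m : ZMod q) + (m : ZMod q)⁻¹ = m' + (m' : ZMod q)⁻¹ := by linear_combination -h3
    field_simp at h5
    linear_combination h5
  rcases mul_eq_zero.1 h4 with h5 | h5
  · have h6 : (m : ZMod q) = (m' : ZMod q) := sub_eq_zero.1 h5
    rw [ZMod.natCast_eq_natCast_iff'] at h6
    rwa [Nat.mod_eq_of_lt (by nlinarith), Nat.mod_eq_of_lt (by nlinarith)] at h6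
  · exfalso
    have h6 : ((m * m' : ℕ) : ZMod q) = ((1 : ℕ) : ZMod q) := by
      push_cast
      exact sub_eq_zero.1 h5
    rw [ZMod.natCast_eq_natCast_iff'] at h6
    rw [Nat.mod_eq_of_lt (by nlinarith), Nat.mod_eq_of_lt hq.one_lt] at h6
    nlinarith

theorem of_mem_Fq {T : Finset ℕ} {M q k : ℕ} (hT : T ⊆ Icc 2 M) (hq : q.Prime) (hM : M ^ 2 < q) (hk : 3 ≤ k)
    (h : k % q ∈ Fq T q) : ∃ m ∈ T, m ∣ q + 1 ∧ q ∣ m * (k + m - 3) + 1 := by
  have := Fact.mk hq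
  obtain ⟨m, hm, he⟩ := mem_image.1 h
  have h0 := mem_filter.1 hm
  have h1 := mem_Icc.1 (hT h0.1)
  have h2 := cast_ne hq hM h1.1 h1.2
  refine ⟨m, h0.1, h0.2, ?_⟩
  have h3 : (k : ZMod q) = (3 : ZMod q) - (m : ZMod q) - (m : ZMod q)⁻¹ := by
    have h4 : ((k % q : ℕ) : ZMod q) = (k : ZMod q) := ZMod.natCast_mod k q
    rw [← h4, ← he, ZMod.natCast_zmod_val]
  rw [← ZMod.natCast_eq_zero_iff]
  have h5 : 3 ≤ k + m := by omega
  push_cast [Nat.cast_sub h5]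
  rw [h3]
  field_simp
  ring

/-- the sifting primes -/
def Pz (M z : ℕ) : Finset ℕ := (Icc 1 z).filter (fun q => q.Prime ∧ M ^ 2 < q)

theorem mem_Pz {M z q : ℕ} : q ∈ Pz M z ↔ q.Prime ∧ M ^ 2 < q ∧ q ≤ z := by
  unfold Pz
  rw [mem_filter, mem_Icc]
  constructor
  · rintro ⟨⟨-, h1⟩, h2, h3⟩
    exact ⟨h2, h3, h1⟩
  · rintro ⟨h1, h2, h3⟩
    exact ⟨⟨h1.one_le, h3⟩, h1, h2⟩

/-- the sum `E` -/
noncomputable def EE (M z : ℕ) (T : Finset ℕ) : ℝ := ∑ q ∈ Pz M z, ((Fq T q).card : ℝ) / q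

theorem card_T_le {T : Finset ℕ} {M : ℕ} (hT : T ⊆ Icc 2 M) : T.card ≤ M := by
  have := card_le_card hT
  rw [Nat.card_Icc] at this
  omega

theorem Fq_le {T : Finset ℕ} {M : ℕ} (hT : T ⊆ Icc 2 M) (q : ℕ) : (Fq T q).card ≤ M :=
  card_image_le.trans ((card_le_card (filter_subset (fun m => m ∣ q + 1) T)).trans (card_T_le hT))

theorem EE_nonneg (M z : ℕ) (T : Finset ℕ) : 0 ≤ EE M z T := sum_nonneg fun q _ => by positivity

theorem EE_le {T : Finset ℕ} {M z : ℕ} (hT : T ⊆ Icc 2 M) : EE M z T ≤ M * (1 + Real.log z) := by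
  have h1 : EE M z T ≤ ∑ q ∈ Icc 1 z, (M : ℝ) * (1 / q) := by
    unfold EE
    refine le_trans (sum_le_sum (f := fun q => ((Fq T q).card : ℝ) / q) (g := fun q => (M : ℝ) * (1 / q)) ?_)
      (sum_le_sum_of_subset_of_nonneg (filter_subset _ _) fun q _ _ => by positivity)
    intro q _
    rw [mul_one_div]
    gcongr
    exact_mod_cast Fq_le hT q
  rw [← mul_sum, sum_inv_Icc] at h1
  refine h1.trans ?_
  gcongr
  exact_mod_cast harmonic_le_one_add_log z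

theorem card_sum_le {T : Finset ℕ} {M z : ℕ} (hT : T ⊆ Icc 2 M) :
    ∑ q ∈ Pz M z, ((Fq T q).card : ℝ) ≤ M * z := by
  calc ∑ q ∈ Pz M z, ((Fq T q).card : ℝ) ≤ ∑ _q ∈ Pz M z, (M : ℝ) := by
        apply sum_le_sum
        intro q _
        exact_mod_cast Fq_le hT q
    _ = (Pz M z).card * (M : ℝ) := by simp
    _ ≤ z * M := by
        gcongr
        have h1 := card_le_card (filter_subset (fun q => q.Prime ∧ M ^ 2 < q) (Icc 1 z))
        rw [Nat.card_Icc] at h1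
        unfold Pz
        omega
    _ = M * z := by ring

/-- the lower bound of `E` -/
theorem EE_ge {M : ℕ} (c : ℕ → ℝ) (hc : ∀ m : ℕ, 1 ≤ m → ∀ z : ℕ, 3 ≤ z →
    Real.log (Real.log z) / (4 * m.totient) - c m ≤
      ∑ q ∈ (Icc 1 z).filter (fun q => q.Prime ∧ m ∣ q + 1), (1 : ℝ) / q) {T : Finset ℕ} (hT : T ⊆ Icc 2 M)
    {z : ℕ} (hz : 3 ≤ z) :
    Real.log (Real.log z) * (∑ m ∈ T, 1 / (4 * (m.totient : ℝ))) - ∑ m ∈ Icc 2 M, (|c m| + M ^ 2) ≤ EE M z T := by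
  have h1 : EE M z T = ∑ m ∈ T, ∑ q ∈ (Pz M z).filter (fun q => m ∣ q + 1), (1 : ℝ) / q := by
    unfold EE
    have h2 : ∀ q ∈ Pz M z, ((Fq T q).card : ℝ) / q = ∑ m ∈ T, if m ∣ q + 1 then (1 : ℝ) / q else 0 := by
      intro q hq
      obtain ⟨h3, h4, -⟩ := mem_Pz.1 hq
      rw [Fq_card hT h3 h4, ← sum_filter, sum_const, nsmul_eq_mul, mul_one_div]
    rw [sum_congr rfl h2, sum_comm]
    apply sum_congr rfl
    intro m _
    rw [sum_filter]
  have h2 : ∀ m ∈ T, Real.log (Real.log z) * (1 / (4 * (m.totient : ℝ))) - (|c m| + M ^ 2) ≤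
      ∑ q ∈ (Pz M z).filter (fun q => m ∣ q + 1), (1 : ℝ) / q := by
    intro m hm
    have h3 := mem_Icc.1 (hT hm)
    have h4 := hc m (by omega) z hz
    have h5 : ∑ q ∈ (Icc 1 z).filter (fun q => q.Prime ∧ m ∣ q + 1), (1 : ℝ) / q ≤
        ∑ q ∈ (Pz M z).filter (fun q => m ∣ q + 1), (1 : ℝ) / q + ∑ q ∈ Icc 1 (M ^ 2), (1 : ℝ) / q := by
      rw [← sum_filter_add_sum_filter_not ((Icc 1 z).filter (fun q => q.Prime ∧ m ∣ q + 1)) (fun q => M ^ 2 < q)]
      apply add_le_add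
      · apply sum_le_sum_of_subset_of_nonneg
        · intro q hq
          rw [mem_filter, mem_filter, mem_Icc] at hq
          rw [mem_filter, mem_Pz]
          exact ⟨⟨hq.1.2.1, hq.2, hq.1.1.2⟩, hq.1.2.2⟩
        · intro q _ _
          positivity
      · apply sum_le_sum_of_subset_of_nonneg
        · intro q hq
          rw [mem_filter, mem_filter, mem_Icc] at hq
          rw [mem_Icc]
          exact ⟨hq.1.1.1, not_lt.1 hq.2⟩
        · intro q _ _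
          positivity
    have h6 : ∑ q ∈ Icc 1 (M ^ 2), (1 : ℝ) / q ≤ M ^ 2 := by
      calc ∑ q ∈ Icc 1 (M ^ 2), (1 : ℝ) / q ≤ ∑ _q ∈ Icc 1 (M ^ 2), (1 : ℝ) := by
            apply sum_le_sum
            intro q hq
            have h7 := (mem_Icc.1 hq).1
            rw [div_le_one (by positivity)]
            exact_mod_cast h7
        _ = M ^ 2 := by simp
    have h7 := le_abs_self (c m)
    have h8 : Real.log (Real.log z) * (1 / (4 * (m.totient : ℝ))) = Real.log (Real.log z) / (4 * m.totient) := by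
      ring
    rw [h8]
    linarith
  rw [h1]
  have h3 := sum_le_sum h2
  rw [sum_sub_distrib, ← mul_sum] at h3
  have h4 : ∑ m ∈ T, (|c m| + (M : ℝ) ^ 2) ≤ ∑ m ∈ Icc 2 M, (|c m| + (M : ℝ) ^ 2) :=
    sum_le_sum_of_subset_of_nonneg hT fun m _ _ => by positivity
  linarith

end Pool.Agent.SPM
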