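import Pool.Agent.SPM.Asm92a

/-! Assembly for MP_7a4c99_nt, part 2 (helper92): one set `T`. -/

set_option autoImplicit false

namespace Pool.Agent.SPM

open Finset

/-- the bound for one set `T` -/
theorem oneT (h2 : R2) {M A : ℕ} (hM2 : 2 ≤ M) (c : ℕ → ℝ) (hc : ∀ m : ℕ, 1 ≤ m → ∀ z : ℕ, 3 ≤ z →
    Real.log (Real.log z) / (4 * m.totient) - c m ≤
      ∑ q ∈ (Icc 1 z).filter (fun q => q.Prime ∧ m ∣ q + 1), (1 : ℝ) / q) {T : Finset ℕ} (hT : T ⊆ Icc 2 M)
    (hK : 2 * (A : ℝ) ≤ ∑ m ∈ T, 1 / (4 * (m.totient : ℝ))) {x : ℕ} {v : ℝ} (hv : 2 ≤ v)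
    (hvx : 34 * M * (M + 1) * v ^ 2 ≤ Real.log x / 2) :
    (((Icc 1 x).filter (fun k => ∀ q ∈ Pz M ⌊Real.exp v⌋₊, k % q ∉ Fq T q)).card : ℝ) ≤
      x * (Real.exp (∑ m ∈ Icc 2 M, (|c m| + (M : ℝ) ^ 2)) * (2 / v) ^ (2 * A) + Real.exp (-v)) +
        Real.exp (Real.log x / 2) := by
  have hM1 : (2 : ℝ) ≤ M := by exact_mod_cast hM2
  set z := ⌊Real.exp v⌋₊ with hz
  have hev : v + 1 ≤ Real.exp v := Real.add_one_le_exp v
  have hz3 : 3 ≤ z := Nat.le_floor (by push_cast; linarith)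
  have hzle : (z : ℝ) ≤ Real.exp v := Nat.floor_le (Real.exp_pos _).le
  have hzge : Real.exp v < z + 1 := Nat.lt_floor_add_one _
  have hz0 : (0 : ℝ) < z := by exact_mod_cast (show 0 < z by omega)
  have hlz : Real.log z ≤ v := by
    rw [Real.log_le_iff_le_exp hz0]
    exact hzle
  have hlz' : v / 2 ≤ Real.log z := by
    rw [Real.le_log_iff_exp_le hz0]
    have h3 : Real.exp v = Real.exp (v / 2) * Real.exp (v / 2) := by
      rw [← Real.exp_add]
      ring_nf
    have h4 : v / 2 + 1 ≤ Real.exp (v / 2) := Real.add_one_le_exp _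
    nlinarith
  have hv2 : (1 : ℝ) ≤ v / 2 := by linarith
  have hll : Real.log (v / 2) ≤ Real.log (Real.log z) := Real.log_le_log (by linarith) hlz'
  have hll0 : 0 ≤ Real.log (v / 2) := Real.log_nonneg hv2
  set K' : ℝ := ∑ m ∈ Icc 2 M, (|c m| + (M : ℝ) ^ 2) with hK'
  have hE0 := EE_nonneg M z T
  have hE1 : EE M z T ≤ M * (1 + v) := by
    refine (EE_le hT).trans ?_
    gcongr
  have hE2 : 2 * (A : ℝ) * Real.log (v / 2) - K' ≤ EE M z T := by
    have h3 := EE_ge c hc hT hz3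
    have h4 : 2 * (A : ℝ) * Real.log (v / 2) ≤ Real.log (Real.log z) * ∑ m ∈ T, 1 / (4 * (m.totient : ℝ)) := by
      calc 2 * (A : ℝ) * Real.log (v / 2) ≤ 2 * (A : ℝ) * Real.log (Real.log z) := by gcongr
        _ = Real.log (Real.log z) * (2 * (A : ℝ)) := by ring
        _ ≤ Real.log (Real.log z) * ∑ m ∈ T, 1 / (4 * (m.totient : ℝ)) := by
          apply mul_le_mul_of_nonneg_left hK
          linarith
    linarith
  have hexpE : Real.exp (-EE M z T) ≤ Real.exp K' * (2 / v) ^ (2 * A) := by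
    have h3 : Real.exp (-EE M z T) ≤ Real.exp (K' - 2 * (A : ℝ) * Real.log (v / 2)) := by
      apply Real.exp_le_exp.2
      linarith
    refine h3.trans (le_of_eq ?_)
    rw [sub_eq_add_neg, Real.exp_add]
    congr 1
    have h4 : Real.exp (2 * (A : ℝ) * Real.log (v / 2)) = (v / 2) ^ (2 * A) := by
      have h5 : 2 * (A : ℝ) * Real.log (v / 2) = ((2 * A : ℕ) : ℝ) * Real.log (v / 2) := by push_cast; ring
      rw [h5, ← Real.log_pow, Real.exp_log (by positivity)]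
    rw [Real.exp_neg, h4, ← inv_pow, inv_div]
  set t := ⌈8 * (M : ℝ) * (1 + v)⌉₊ with ht
  have ht1 : 8 * (M : ℝ) * (1 + v) ≤ t := Nat.le_ceil _
  have ht2 : (t : ℝ) < 8 * (M : ℝ) * (1 + v) + 1 := Nat.ceil_lt_add_one (by positivity)
  have hsec : (EE M z T) ^ (2 * t + 1) / (2 * t + 1).factorial ≤ Real.exp (-v) := by
    have h3 := Real.pow_div_factorial_le_exp (8 * EE M z T) (by linarith) (2 * t + 1)
    have h4 : (EE M z T) ^ (2 * t + 1) / (2 * t + 1).factorial =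
        ((8 * EE M z T) ^ (2 * t + 1) / (2 * t + 1).factorial) / 8 ^ (2 * t + 1) := by
      rw [mul_pow]
      field_simp
    have h5 : Real.exp (2 * (2 * t + 1 : ℕ)) ≤ (8 : ℝ) ^ (2 * t + 1) := by
      have h6 : Real.exp (2 * (2 * t + 1 : ℕ)) = (Real.exp 2) ^ (2 * t + 1) := by
        rw [← Real.exp_nat_mul]
        ring_nf
      rw [h6]
      have h7 : Real.exp 2 ≤ 8 := by
        have h8 : Real.exp 2 = Real.exp 1 * Real.exp 1 := by
          rw [← Real.exp_add]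
          norm_num
        have h9 := Real.exp_one_lt_d9
        have h10 := Real.exp_pos 1
        nlinarith
      exact pow_le_pow_left₀ (Real.exp_pos _).le h7 _
    have h8pos : (0 : ℝ) < 8 ^ (2 * t + 1) := by positivity
    rw [h4, div_le_iff₀ h8pos]
    refine h3.trans ?_
    have h6 : Real.exp (8 * EE M z T) ≤ Real.exp (-v) * Real.exp (2 * (2 * t + 1 : ℕ)) := by
      rw [← Real.exp_add]
      apply Real.exp_le_exp.2
      push_cast
      nlinarith
    refine h6.trans ?_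
    gcongr
  have hthird : (1 + ∑ q ∈ Pz M z, ((Fq T q).card : ℝ)) ^ (2 * t) ≤ Real.exp (Real.log x / 2) := by
    have h3 : 1 + ∑ q ∈ Pz M z, ((Fq T q).card : ℝ) ≤ Real.exp (M + v) := by
      have h4 := card_sum_le (z := z) hT
      have h5 : (M : ℝ) + 1 ≤ Real.exp M := Real.add_one_le_exp _
      have h6 : (1 : ℝ) ≤ Real.exp v := by linarith
      have h7 : (M : ℝ) * z ≤ M * Real.exp v := by gcongr
      have h8 : ((M : ℝ) + 1) * Real.exp v ≤ Real.exp M * Real.exp v := by gcongr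
      rw [Real.exp_add]
      linarith
    have h4 : (0 : ℝ) ≤ 1 + ∑ q ∈ Pz M z, ((Fq T q).card : ℝ) := by
      have : (0 : ℝ) ≤ ∑ q ∈ Pz M z, ((Fq T q).card : ℝ) := sum_nonneg fun q _ => by positivity
      linarith
    calc (1 + ∑ q ∈ Pz M z, ((Fq T q).card : ℝ)) ^ (2 * t) ≤ (Real.exp (M + v)) ^ (2 * t) :=
          pow_le_pow_left₀ h4 h3 _
      _ = Real.exp ((2 * t : ℕ) * (M + v)) := by rw [← Real.exp_nat_mul]
      _ ≤ Real.exp (Real.log x / 2) := by
          apply Real.exp_le_exp.2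
          refine le_trans ?_ hvx
          push_cast
          have h5 : (t : ℝ) ≤ 13 * M * v := by nlinarith
          have h6 : (M : ℝ) + v ≤ (M + 1) * v := by nlinarith
          have h7 : 0 ≤ (t : ℝ) := Nat.cast_nonneg _
          have h8 : (0 : ℝ) ≤ (M + 1) * v := by positivity
          calc 2 * (t : ℝ) * (M + v) ≤ 2 * (13 * M * v) * ((M + 1) * v) := by gcongr
            _ ≤ 34 * M * (M + 1) * v ^ 2 := by
              have : (0 : ℝ) ≤ M * (M + 1) * v ^ 2 := by positivity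
              nlinarith
  have hR := h2 (Pz M z) (Fq T) x t (fun q hq => ⟨(mem_Pz.1 hq).1, Fq_lt (mem_Pz.1 hq).1⟩)
  have hdef : EE M z T = ∑ q ∈ Pz M z, ((Fq T q).card : ℝ) / q := rfl
  rw [← hdef] at hR
  have hx0 : (0 : ℝ) ≤ x := Nat.cast_nonneg _
  refine hR.trans ?_
  gcongr

end Pool.Agent.SPM
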