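import Pool.Agent.SPM.Asm92b

/-! Assembly for MP_7a4c99_nt, part 3 (helper92): R4. -/

set_option autoImplicit false

namespace Pool.Agent.SPM

open Finset

/-- the exceptional set for large `x` -/
theorem large_x (h2 : R2) (h3 : R3) {M A C : ℕ} (hM2 : 2 ≤ M)
    (hM : ∀ T ⊆ Icc 2 M, M ≤ T.card + C + 1 → 2 * (A : ℝ) ≤ ∑ m ∈ T, 1 / (4 * (m.totient : ℝ)))
    (c : ℕ → ℝ) (hc : ∀ m : ℕ, 1 ≤ m → ∀ z : ℕ, 3 ≤ z →
    Real.log (Real.log z) / (4 * m.totient) - c m ≤
      ∑ q ∈ (Icc 1 z).filter (fun q => q.Prime ∧ m ∣ q + 1), (1 : ℝ) / q) {x : ℕ} {v : ℝ} (hv : 2 ≤ v)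
    (hvx : 34 * M * (M + 1) * v ^ 2 ≤ Real.log x / 2) :
    (((Icc 2 x).filter (fun k => N k ≤ C)).card : ℝ) ≤
      3 * Real.exp (Real.log x / 2) + 2 ^ M *
      (x * (Real.exp (∑ m ∈ Icc 2 M, (|c m| + (M : ℝ) ^ 2)) * (2 / v) ^ (2 * A) + Real.exp (-v)) +
        Real.exp (Real.log x / 2)) := by
  classical
  have hM1 : (2 : ℝ) ≤ M := by exact_mod_cast hM2
  set z := ⌊Real.exp v⌋₊ with hz
  set GT := (Icc 2 M).powerset.filter (fun T => M ≤ T.card + C + 1) with hGT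
  have hsub : (Icc 2 x).filter (fun k => N k ≤ C) ⊆ Icc 1 (z ^ 2 + 2) ∪
      GT.biUnion (fun T => (Icc 1 x).filter (fun k => ∀ q ∈ Pz M z, k % q ∉ Fq T q)) := by
    intro k hk
    rw [mem_filter, mem_Icc] at hk
    rw [mem_union]
    by_cases hkz : k ≤ z ^ 2 + 2
    · left
      rw [mem_Icc]
      omega
    · right
      obtain ⟨T, hT, hTc, hTq⟩ := h3 M C k (by omega) hk.2
      rw [mem_biUnion]
      refine ⟨T, by rw [hGT, mem_filter, mem_powerset]; exact ⟨hT, hTc⟩, ?_⟩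
      rw [mem_filter, mem_Icc]
      refine ⟨by omega, fun q hq hmem => ?_⟩
      obtain ⟨hq1, hq2, hq3⟩ := mem_Pz.1 hq
      obtain ⟨m, hm, hd, hdv⟩ := of_mem_Fq hT hq1 hq2 (by omega) hmem
      refine hTq m hm q hq1 hq2 ?_ hd hdv
      have : q ^ 2 ≤ z ^ 2 := Nat.pow_le_pow_left hq3 2
      omega
  have h4 := (card_le_card hsub).trans (card_union_le _ _)
  have h5 := h4.trans (add_le_add_right card_biUnion_le (Icc 1 (z ^ 2 + 2)).card)
  rw [Nat.card_Icc, Nat.add_sub_cancel] at h5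
  have h6 : (((Icc 2 x).filter (fun k => N k ≤ C)).card : ℝ) ≤ ((z : ℝ) ^ 2 + 2) +
      ∑ T ∈ GT, (((Icc 1 x).filter (fun k => ∀ q ∈ Pz M z, k % q ∉ Fq T q)).card : ℝ) := by
    exact_mod_cast h5
  have hx0 : (0 : ℝ) ≤ x := Nat.cast_nonneg _
  set W : ℝ := x * (Real.exp (∑ m ∈ Icc 2 M, (|c m| + (M : ℝ) ^ 2)) * (2 / v) ^ (2 * A) + Real.exp (-v)) +
        Real.exp (Real.log x / 2) with hW
  have hW0 : 0 ≤ W := by
    rw [hW]
    have : 0 < v := by linarith
    positivity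
  have h7 : ∑ T ∈ GT, (((Icc 1 x).filter (fun k => ∀ q ∈ Pz M z, k % q ∉ Fq T q)).card : ℝ) ≤ 2 ^ M * W := by
    calc ∑ T ∈ GT, (((Icc 1 x).filter (fun k => ∀ q ∈ Pz M z, k % q ∉ Fq T q)).card : ℝ) ≤ ∑ _T ∈ GT, W := by
          apply sum_le_sum
          intro T hT
          rw [hGT, mem_filter, mem_powerset] at hT
          exact oneT h2 hM2 c hc hT.1 (hM T hT.1 hT.2) hv hvx
      _ = (GT.card : ℝ) * W := by simp
      _ ≤ 2 ^ M * W := by
          gcongr
          have h8 : GT.card ≤ 2 ^ M := by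
            refine (card_le_card (filter_subset _ _)).trans ?_
            rw [card_powerset, Nat.card_Icc]
            exact Nat.pow_le_pow_right (by norm_num) (by omega)
          exact_mod_cast h8
  have h8 : (z : ℝ) ^ 2 + 2 ≤ 3 * Real.exp (Real.log x / 2) := by
    have hzle : (z : ℝ) ≤ Real.exp v := Nat.floor_le (Real.exp_pos _).le
    have h9 : (z : ℝ) ^ 2 ≤ Real.exp (Real.log x / 2) := by
      calc (z : ℝ) ^ 2 ≤ (Real.exp v) ^ 2 := by gcongr
        _ = Real.exp (2 * v) := by rw [← Real.exp_nat_mul]; norm_num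
        _ ≤ Real.exp (Real.log x / 2) := by
          apply Real.exp_le_exp.2
          refine le_trans ?_ hvx
          have h10 : (6 : ℝ) ≤ M * (M + 1) := by nlinarith
          have h11 : 34 * (M : ℝ) * (M + 1) * v ^ 2 = 34 * (M * (M + 1)) * v ^ 2 := by ring
          rw [h11]
          nlinarith
    have h10 : (1 : ℝ) ≤ Real.exp (Real.log x / 2) := by
      apply Real.one_le_exp
      have : (0 : ℝ) ≤ 34 * M * (M + 1) * v ^ 2 := by positivity
      linarith
    linarith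
  linarith

/-- Row R4. -/
theorem r4_92 : R4 := by
  intro h1 h2 h3 A C
  have hc0 : ∀ m : ℕ, ∃ c : ℝ, 1 ≤ m → ∀ z : ℕ, 3 ≤ z → Real.log (Real.log z) / (4 * m.totient) - c ≤
      ∑ q ∈ (Icc 1 z).filter (fun q => q.Prime ∧ m ∣ q + 1), (1 : ℝ) / q := by
    intro m
    by_cases hm : 1 ≤ m
    · obtain ⟨c, hc⟩ := h1 m hm
      exact ⟨c, fun _ => hc⟩
    · exact ⟨0, fun h => absurd h hm⟩
  choose c hc using hc0
  obtain ⟨M, hM2, hM⟩ := exists_M (2 * A) C
  have hM1 : (2 : ℝ) ≤ M := by exact_mod_cast hM2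
  set K : ℝ := Real.exp (∑ m ∈ Icc 2 M, (|c m| + (M : ℝ) ^ 2)) with hK
  have hK0 : 0 < K := Real.exp_pos _
  set d : ℝ := 1 / (12 * (M + 1)) with hd
  have hd0 : 0 < d := by rw [hd]; positivity
  set B1 : ℝ := 2 ^ M * (K * 2 ^ (2 * A) / d ^ (2 * A)) with hB1
  set B2 : ℝ := 2 ^ M * ((2 * A).factorial / d ^ (2 * A)) with hB2
  set B3 : ℝ := (3 + 2 ^ M) * (A.factorial * 2 ^ A) with hB3
  set B4 : ℝ := (2 / d) ^ (2 * A) with hB4
  have p1 : 0 ≤ B1 := by rw [hB1]; positivity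
  have p2 : 0 ≤ B2 := by rw [hB2]; positivity
  have p3 : 0 ≤ B3 := by rw [hB3]; positivity
  have p4 : 0 ≤ B4 := by rw [hB4]; positivity
  refine ⟨B1 + B2 + B3 + B4, fun x hx => ?_⟩
  have hx0 : (0 : ℝ) < x := by exact_mod_cast (show 0 < x by omega)
  have hL : 0 < Real.log x := Real.log_pos (by exact_mod_cast (show 1 < x by omega))
  set Lx : ℝ := Real.log x with hLx
  have hLA : 0 < Lx ^ A := by positivity
  have hsq : Real.sqrt Lx ^ 2 = Lx := Real.sq_sqrt hL.le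
  have hs0 : 0 < Real.sqrt Lx := Real.sqrt_pos.2 hL
  rcases le_or_gt 2 (d * Real.sqrt Lx) with hv | hv
  · -- large x
    have hvx : 34 * M * (M + 1) * (d * Real.sqrt Lx) ^ 2 ≤ Real.log x / 2 := by
      rw [mul_pow, hsq, hd, ← hLx]
      have h5 : 34 * (M : ℝ) * (M + 1) * ((1 / (12 * (M + 1))) ^ 2 * Lx) = (34 * M / (144 * (M + 1))) * Lx := by
        field_simp
        ring
      rw [h5]
      have h6 : 34 * (M : ℝ) / (144 * (M + 1)) ≤ 1 / 2 := by
        rw [div_le_div_iff₀ (by positivity) (by norm_num)]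
        linarith
      nlinarith
    have h5 := large_x h2 h3 hM2 hM c (fun m hm => hc m hm) hv hvx
    refine h5.trans ?_
    have hv0 : 0 < d * Real.sqrt Lx := by positivity
    have e1 : (d * Real.sqrt Lx) ^ (2 * A) = d ^ (2 * A) * Lx ^ A := by
      rw [mul_pow, pow_mul (Real.sqrt Lx), hsq]
    have e2 : (2 / (d * Real.sqrt Lx)) ^ (2 * A) = 2 ^ (2 * A) / d ^ (2 * A) / Lx ^ A := by
      rw [div_pow, e1, div_div]
    have e3 : Real.exp (-(d * Real.sqrt Lx)) ≤ (2 * A).factorial / d ^ (2 * A) / Lx ^ A := by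
      have h6 := Real.pow_div_factorial_le_exp (d * Real.sqrt Lx) hv0.le (2 * A)
      rw [e1] at h6
      rw [Real.exp_neg, div_div, inv_le_comm₀ (Real.exp_pos _) (by positivity), inv_div]
      exact h6
    have e4 : Real.exp (Real.log x / 2) ≤ x * (A.factorial * 2 ^ A / Lx ^ A) := by
      have h6 := Real.pow_div_factorial_le_exp (Lx / 2) (by positivity) A
      have h7 : Real.exp (Real.log x / 2) * Real.exp (Lx / 2) = x := by
        rw [← Real.exp_add, ← hLx, add_halves, hLx, Real.exp_log hx0]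
      have h8 : Lx ^ A / (A.factorial * 2 ^ A) ≤ Real.exp (Lx / 2) := by
        refine le_trans (le_of_eq ?_) h6
        rw [div_pow]
        field_simp
      have h9 : (0 : ℝ) < Lx ^ A / (A.factorial * 2 ^ A) := by positivity
      have h10 : Real.exp (Real.log x / 2) * (Lx ^ A / (A.factorial * 2 ^ A)) ≤ x := by
        calc Real.exp (Real.log x / 2) * (Lx ^ A / (A.factorial * 2 ^ A)) ≤
              Real.exp (Real.log x / 2) * Real.exp (Lx / 2) := by gcongr
          _ = x := h7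
      have h11 : (A.factorial * 2 ^ A / Lx ^ A : ℝ) = (Lx ^ A / (A.factorial * 2 ^ A))⁻¹ := by rw [inv_div]
      rw [h11, ← div_eq_mul_inv, le_div_iff₀ h9]
      exact h10
    rw [e2]
    have e5 : 2 ^ M * (x * (K * (2 ^ (2 * A) / d ^ (2 * A) / Lx ^ A) + Real.exp (-(d * Real.sqrt Lx))) +
        Real.exp (Real.log x / 2)) ≤ 2 ^ M * (x * (K * (2 ^ (2 * A) / d ^ (2 * A) / Lx ^ A) +
          (2 * A).factorial / d ^ (2 * A) / Lx ^ A) + x * (A.factorial * 2 ^ A / Lx ^ A)) := by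
      apply mul_le_mul_of_nonneg_left _ (by positivity)
      refine add_le_add ?_ e4
      apply mul_le_mul_of_nonneg_left _ hx0.le
      exact add_le_add_right e3 _
    have e6 : 3 * Real.exp (Real.log x / 2) ≤ 3 * (x * (A.factorial * 2 ^ A / Lx ^ A)) :=
      mul_le_mul_of_nonneg_left e4 (by norm_num)
    have e7 : 3 * (x * (A.factorial * 2 ^ A / Lx ^ A)) + 2 ^ M * (x * (K * (2 ^ (2 * A) / d ^ (2 * A) / Lx ^ A) +
          (2 * A).factorial / d ^ (2 * A) / Lx ^ A) + x * (A.factorial * 2 ^ A / Lx ^ A)) =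
        (B1 + B2 + B3) * x / Lx ^ A := by
      rw [hB1, hB2, hB3]
      field_simp
      ring
    calc 3 * Real.exp (Real.log x / 2) + 2 ^ M * (x * (K * (2 ^ (2 * A) / d ^ (2 * A) / Lx ^ A) +
          Real.exp (-(d * Real.sqrt Lx))) + Real.exp (Real.log x / 2)) ≤ _ := add_le_add e6 e5
      _ = (B1 + B2 + B3) * x / Lx ^ A := e7
      _ ≤ (B1 + B2 + B3 + B4) * x / Lx ^ A :=
        div_le_div_of_nonneg_right (mul_le_mul_of_nonneg_right (by linarith) hx0.le) hLA.le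
  · -- small x
    have h5 : (((Icc 2 x).filter (fun k => N k ≤ C)).card : ℝ) ≤ x := by
      have h6 : ((Icc 2 x).filter (fun k => N k ≤ C)).card ≤ x := by
        refine (card_le_card (filter_subset _ _)).trans ?_
        rw [Nat.card_Icc]
        omega
      exact_mod_cast h6
    refine h5.trans ?_
    rw [le_div_iff₀ hLA]
    have h6 : Lx ^ A ≤ B4 := by
      rw [hB4, ← hsq, ← pow_mul]
      have h7 : Real.sqrt Lx ≤ 2 / d := by
        rw [le_div_iff₀ hd0]
        linarith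
      exact pow_le_pow_left₀ hs0.le h7 _
    have h7 : Lx ^ A ≤ B1 + B2 + B3 + B4 := by linarith
    calc (x : ℝ) * Lx ^ A ≤ x * (B1 + B2 + B3 + B4) := by gcongr
      _ = (B1 + B2 + B3 + B4) * x := by ring

end Pool.Agent.SPM
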