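import Pool.Agent.SPM.Asm92d
import Pool.Agent.SPM.Exc92

/-! Assembly for MP_7a4c99_nt, many solutions, part 2 (helper92). -/

set_option autoImplicit false

namespace Pool.Agent.SPM

open Finset

/-- Row R4'. -/
theorem r4b_92 (h1 : R1) (h2 : R2b) : MainB := by
  intro A
  have hc0 : ∀ m : ℕ, ∃ c : ℝ, 1 ≤ m → ∀ z : ℕ, 3 ≤ z → Real.log (Real.log z) / (4 * m.totient) - c ≤
      ∑ q ∈ (Icc 1 z).filter (fun q => q.Prime ∧ m ∣ q + 1), (1 : ℝ) / q := by
    intro m
    by_cases hm : 1 ≤ m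
    · obtain ⟨c, hc⟩ := h1 m hm
      exact ⟨c, fun _ => hc⟩
    · exact ⟨0, fun h => absurd h hm⟩
  choose c hc using hc0
  obtain ⟨M, hM2, hM⟩ := exists_M (4 * ((A + 1 : ℕ) : ℝ)) 0
  have hM1 : (2 : ℝ) ≤ M := by exact_mod_cast hM2
  have hKT := hM (Icc 2 M) (Subset.refl _) (by rw [Nat.card_Icc]; omega)
  set K : ℝ := Real.exp ((∑ m ∈ Icc 2 M, (|c m| + (M : ℝ) ^ 2)) / 2) with hK
  have hK0 : 0 < K := Real.exp_pos _
  set d : ℝ := 1 / (100 * (M + 1) ^ 2) with hd
  have hd0 : 0 < d := by rw [hd]; positivity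
  have hd1 : d * (M * (M + 1)) ≤ 1 / 8 := by
    rw [hd, div_mul_eq_mul_div, div_le_div_iff₀ (by positivity) (by norm_num)]
    nlinarith
  have hd2 : d ≤ 1 / 100 := by
    rw [hd]
    apply one_div_le_one_div_of_le (by norm_num)
    nlinarith
  clear_value d K
  set e : ℝ := Real.log 2 / (2 * M) with he
  have hl2 : 0 < Real.log 2 := Real.log_pos (by norm_num)
  have he0 : 0 < e := by rw [he]; positivity
  clear_value e
  set B1 : ℝ := Real.exp (4 * M) * (K * (2 / d) ^ (2 * (A + 1))) with hB1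
  set B2 : ℝ := Real.exp (4 * M) * ((2 * (A + 1)).factorial / d ^ (2 * (A + 1))) with hB2
  set B3 : ℝ := 6 * (A.factorial * 2 ^ A) with hB3
  set B4 : ℝ := (2 / d) ^ (2 * A) with hB4
  have p1 : 0 ≤ B1 := by rw [hB1]; positivity
  have p2 : 0 ≤ B2 := by rw [hB2]; positivity
  have p3 : 0 ≤ B3 := by rw [hB3]; positivity
  have p4 : 0 ≤ B4 := by rw [hB4]; positivity
  clear_value B1 B2 B3 B4
  refine ⟨e, B1 + B2 + B3 + B4, he0, fun x hx => ?_⟩
  have hx0 : (0 : ℝ) < x := by exact_mod_cast (show 0 < x by omega)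
  have hL : 0 < Real.log x := Real.log_pos (by exact_mod_cast (show 1 < x by omega))
  set Lx : ℝ := Real.log x with hLx
  have hLA : 0 < Lx ^ A := by positivity
  set u : ℝ := Real.sqrt Lx with hu
  have hsq : u ^ 2 = Lx := Real.sq_sqrt hL.le
  have hs0 : 0 < u := Real.sqrt_pos.2 hL
  clear_value u
  rcases le_or_gt 2 (d * u) with hv | hv
  · -- large x
    have hu200 : 200 ≤ u := by
      have : d * u ≤ 1 / 100 * u := by gcongr
      linarith
    have hL1 : 1 ≤ Lx := by nlinarith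
    have hll0 : 0 ≤ Real.log Lx := Real.log_nonneg hL1
    have hll : Real.log Lx ≤ 2 * u := by
      rw [← hsq, Real.log_pow]
      have := Real.log_le_self hs0.le
      push_cast
      linarith
    set t₁ := ⌈Real.log Lx / (2 * M)⌉₊ + 1 with ht₁
    have ht1 : Real.log Lx / (2 * M) ≤ ((t₁ - 1 : ℕ) : ℝ) := by
      rw [ht₁, Nat.add_sub_cancel]
      exact Nat.le_ceil _
    have ht2 : (t₁ : ℝ) ≤ Real.log Lx / (2 * M) + 2 := by
      have := Nat.ceil_lt_add_one (show 0 ≤ Real.log Lx / (2 * M) by positivity)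
      rw [ht₁]
      push_cast
      linarith
    have ht3 : 1 ≤ t₁ := by omega
    clear_value t₁
    have ht4 : (t₁ : ℝ) * (d * u) ≤ d * Lx := by
      have h5 : Real.log Lx / (2 * M) ≤ u / 2 := by
        rw [div_le_div_iff₀ (by positivity) (by norm_num)]
        nlinarith
      have h6 : (t₁ : ℝ) ≤ u := by linarith
      calc (t₁ : ℝ) * (d * u) ≤ u * (d * u) := by gcongr
        _ = d * Lx := by rw [← hsq]; ring
    have hvx : 34 * M * (M + 1) * (d * u) ^ 2 ≤ Real.log x / 8 := by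
      rw [mul_pow, hsq, ← hLx]
      have h5 : 34 * (M : ℝ) * (M + 1) * (d ^ 2 * Lx) = 34 * (d * (M * (M + 1))) * d * Lx := by ring
      rw [h5]
      have h6 : 34 * (d * (M * (M + 1))) * d ≤ 1 / 8 := by
        have h7 : 34 * (d * (M * (M + 1))) * d ≤ 34 * (1 / 8) * (1 / 100) := by gcongr
        linarith
      nlinarith
    have hJv : ((M * t₁ : ℕ) : ℝ) * ((M + 1) * (d * u)) ≤ Real.log x / 8 := by
      rw [← hLx]
      push_cast
      calc (M : ℝ) * t₁ * ((M + 1) * (d * u)) = (M * (M + 1)) * (t₁ * (d * u)) := by ring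
        _ ≤ (M * (M + 1)) * (d * Lx) := by gcongr
        _ = (d * (M * (M + 1))) * Lx := by ring
        _ ≤ (1 / 8) * Lx := by gcongr
        _ = Lx / 8 := by ring
    have hb := boundB h2 hM2 c (fun m hm => hc m hm) hKT hv hJv hvx
    rw [← hK] at hb
    set z := ⌊Real.exp (d * u)⌋₊ with hz
    -- the subset
    have hpow : Real.log x ^ e ≤ ((2 ^ (t₁ - 1) : ℕ) : ℝ) := by
      rw [← hLx, Real.rpow_def_of_pos hL]
      have h5 : ((2 ^ (t₁ - 1) : ℕ) : ℝ) = Real.exp (((t₁ - 1 : ℕ) : ℝ) * Real.log 2) := by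
        rw [Real.exp_nat_mul, Real.exp_log (by norm_num)]
        push_cast
        rfl
      rw [h5]
      apply Real.exp_le_exp.2
      have h6 : Real.log Lx * e = (Real.log Lx / (2 * M)) * Real.log 2 := by rw [he]; ring
      rw [h6]
      gcongr
    have hsub : (Icc 2 x).filter (fun k => (N k : ℝ) < Real.log x ^ e) ⊆ Icc 1 (z ^ (2 * t₁) + 2) ∪
        (Icc 1 x).filter (fun k => ((Pz M z).filter (fun q => k % q ∈ Fq (Icc 2 M) q)).card ≤ M * t₁) := by
      intro k hk
      rw [mem_filter, mem_Icc] at hk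
      rw [mem_union]
      by_cases hkz : k ≤ z ^ (2 * t₁) + 2
      · left
        rw [mem_Icc]
        omega
      · right
        rw [mem_filter, mem_Icc]
        refine ⟨by omega, few_exc ht3 (by omega) (by omega) ?_⟩
        exact_mod_cast hk.2.trans_le hpow
    have h4 := (card_le_card hsub).trans (card_union_le _ _)
    rw [Nat.card_Icc, Nat.add_sub_cancel] at h4
    have h5 : (((Icc 2 x).filter (fun k => (N k : ℝ) < Real.log x ^ e)).card : ℝ) ≤ ((z : ℝ) ^ (2 * t₁) + 2) +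
        (((Icc 1 x).filter (fun k => ((Pz M z).filter (fun q => k % q ∈ Fq (Icc 2 M) q)).card ≤ M * t₁)).card : ℝ) := by
      exact_mod_cast h4
    have h6 : (z : ℝ) ^ (2 * t₁) + 2 ≤ 3 * Real.exp (Real.log x / 2) := by
      have hzle : (z : ℝ) ≤ Real.exp (d * u) := Nat.floor_le (Real.exp_pos _).le
      have h9 : (z : ℝ) ^ (2 * t₁) ≤ Real.exp (Real.log x / 2) := by
        calc (z : ℝ) ^ (2 * t₁) ≤ (Real.exp (d * u)) ^ (2 * t₁) := pow_le_pow_left₀ (Nat.cast_nonneg _) hzle _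
          _ = Real.exp ((2 * t₁ : ℕ) * (d * u)) := by rw [← Real.exp_nat_mul]
          _ ≤ Real.exp (Real.log x / 2) := by
            apply Real.exp_le_exp.2
            rw [← hLx]
            push_cast
            have h10 : d * Lx ≤ 1 / 100 * Lx := by gcongr
            nlinarith
      have h10 : (1 : ℝ) ≤ Real.exp (Real.log x / 2) := Real.one_le_exp (by rw [← hLx]; positivity)
      linarith
    -- the powers
    obtain ⟨e5, e4⟩ := powers92 (A := A) (K := K) hM1 hd0 hs0 hL hsq hK0 hx0 ht2 hll0 (by rw [hLx, Real.exp_log hx0])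
    rw [← hB1, ← hB2] at e5
    have e8 : 3 * Real.exp (Lx / 2) + (x * ((B1 + B2) / Lx ^ A) + 3 * Real.exp (Lx / 2)) ≤
        (B1 + B2 + B3) * x / Lx ^ A := by
      have h7 : (B1 + B2 + B3) * x / Lx ^ A =
          x * ((B1 + B2) / Lx ^ A) + 6 * (x * (A.factorial * 2 ^ A / Lx ^ A)) := by
        rw [hB3]
        field_simp
      rw [h7]
      linarith
    have e9 : (B1 + B2 + B3) * x / Lx ^ A ≤ (B1 + B2 + B3 + B4) * x / Lx ^ A :=
      div_le_div_of_nonneg_right (mul_le_mul_of_nonneg_right (by linarith) hx0.le) hLA.le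
    have e10 : (x : ℝ) * ((6 : ℝ) ^ (M * t₁) * (K * (2 / (d * u)) ^ (2 * (A + 1)) + Real.exp (-(d * u)))) ≤
        x * ((B1 + B2) / Lx ^ A) := mul_le_mul_of_nonneg_left e5 hx0.le
    linarith
  · -- small x
    have h5 : (((Icc 2 x).filter (fun k => (N k : ℝ) < Real.log x ^ e)).card : ℝ) ≤ x := by
      have h6 : ((Icc 2 x).filter (fun k => (N k : ℝ) < Real.log x ^ e)).card ≤ x := by
        refine (card_le_card (filter_subset _ _)).trans ?_
        rw [Nat.card_Icc]
        omega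
      exact_mod_cast h6
    refine h5.trans ?_
    rw [le_div_iff₀ hLA]
    have h6 : Lx ^ A ≤ B4 := by
      rw [hB4, ← hsq, ← pow_mul]
      have h7 : u ≤ 2 / d := by
        rw [le_div_iff₀ hd0]
        linarith
      exact pow_le_pow_left₀ hs0.le h7 _
    have h7 : Lx ^ A ≤ B1 + B2 + B3 + B4 := by linarith
    calc (x : ℝ) * Lx ^ A ≤ x * (B1 + B2 + B3 + B4) := by gcongr
      _ = (B1 + B2 + B3 + B4) * x := by ring

end Pool.Agent.SPM
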