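import Pool.Agent.SPM.Asm92a
import Pool.Agent.SPM.Asm92e
import Pool.Agent.SPM.Brun2b34

/-!
# MP_7a4c99_nt: many solutions for almost all `k` (helper92)

`N k` is the number of multisets of `k` positive integers with sum equal to product. For every `A`
there is `c > 0` with `N k < (log x) ^ c` for at most `O (x / (log x) ^ A)` of the `k ≤ x`.
-/

set_option autoImplicit false

namespace Pool.Agent.SPM

/-- the number of solutions is at least a power of the logarithm outside a small set -/
theorem main2_92 : ∀ A : ℕ, ∃ c B : ℝ, 0 < c ∧ ∀ x : ℕ, 2 ≤ x →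
    (((Finset.Icc 2 x).filter (fun k => (N k : ℝ) < Real.log x ^ c)).card : ℝ) ≤
      B * x / Real.log x ^ A :=
  r4b_92 r1_92 B34.r2b_34

end Pool.Agent.SPM
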