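import Mathlib

/-!
# MP_7a4c99_nt: the exceptional set of the sum = product problem, interface statements
-/

set_option autoImplicit false

namespace Pool.Agent.SPM

/-- a multiset of `k` positive integers whose sum and product are equal -/
def IsSP (k : ℕ) (s : Multiset ℕ) : Prop := s.card = k ∧ (∀ a ∈ s, 0 < a) ∧ s.prod = s.sum

/-- the number of sum = product multisets of size `k` -/
noncomputable def N (k : ℕ) : ℕ := {s : Multiset ℕ | IsSP k s}.ncard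

/-- R1: primes congruent to `-1` modulo `m` -/
def R1 : Prop := ∀ m : ℕ, 1 ≤ m → ∃ C : ℝ, ∀ z : ℕ, 3 ≤ z →
  Real.log (Real.log z) / (4 * m.totient) - C ≤
    ∑ q ∈ (Finset.Icc 1 z).filter (fun q => q.Prime ∧ m ∣ q + 1), (1 : ℝ) / q

/-- R2: Brun's pure sieve -/
def R2 : Prop := ∀ (P : Finset ℕ) (F : ℕ → Finset ℕ) (x t : ℕ), (∀ q ∈ P, q.Prime ∧ ∀ r ∈ F q, r < q) →
  (((Finset.Icc 1 x).filter (fun k => ∀ q ∈ P, k % q ∉ F q)).card : ℝ) ≤
    x * (Real.exp (-(∑ q ∈ P, ((F q).card : ℝ) / q)) +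
      (∑ q ∈ P, ((F q).card : ℝ) / q) ^ (2 * t + 1) / (2 * t + 1).factorial) +
    (1 + ∑ q ∈ P, ((F q).card : ℝ)) ^ (2 * t)

/-- R3: few solutions, so few prime divisors of the numbers `m (k + m - 3) + 1` -/
def R3 : Prop := ∀ M C k : ℕ, 3 ≤ k → N k ≤ C → ∃ T ⊆ Finset.Icc 2 M, M ≤ T.card + C + 1 ∧
  ∀ m ∈ T, ∀ q : ℕ, q.Prime → M ^ 2 < q → q ^ 2 ≤ k → m ∣ q + 1 → ¬ q ∣ m * (k + m - 3) + 1

/-- the main theorem -/
def Main : Prop := ∀ A C : ℕ, ∃ B : ℝ, ∀ x : ℕ, 2 ≤ x →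
  (((Finset.Icc 2 x).filter (fun k => N k ≤ C)).card : ℝ) ≤ B * x / Real.log x ^ A

/-- R4: the assembly -/
def R4 : Prop := R1 → R2 → R3 → Main

end Pool.Agent.SPM
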